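import Pool.Agent.H849.SF.Ref

/-!
# The Lefschetz properties of all the sections imply the strong form
-/

set_option autoImplicit false
set_option linter.unusedSectionVars false

open Module

namespace Pool.Agent.H849.NC

open Pool.Agent.H849.SF

variable {K : Type*} [Field K] {E : Type*} [AddCommGroup E] [Module K E]

/-- Injectivity of `N ^ k` on the homology of the complex `L ^ c E`, in weight `s` for `h₂`. -/
def VInj (h₁ N h₂ L d : Module.End K E) (c : ℕ) (s : ℤ) : Prop :=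
  ∀ (k : ℕ) (x y : E), h₁ x = (-(k : K)) • x → h₂ x = (s : K) • x → (L ^ c) (d x) = 0 →
    (L ^ c) ((N ^ k) x) = (L ^ c) (d y) → ∃ z, (L ^ c) x = (L ^ c) (d z)

/-- Surjectivity of `N ^ k` on the homology of the complex `L ^ c E`, in weight `s` for `h₂`. -/
def VSurj (h₁ N h₂ L d : Module.End K E) (c : ℕ) (s : ℤ) : Prop :=
  ∀ (k : ℕ) (y : E), h₁ y = (k : K) • y → h₂ y = (s : K) • y → (L ^ c) (d y) = 0 →
    ∃ x z, h₁ x = (-(k : K)) • x ∧ h₂ x = (s : K) • x ∧ (L ^ c) (d x) = 0 ∧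
      (L ^ c) (y - (N ^ k) x) = (L ^ c) (d z)

/-- The homogeneous part of an equation `L ^ c x = L ^ c d y`. -/
lemma hom_pow [CharZero K] {h₁ N N' h₂ L L' d : Module.End K E}
    (W : IsWeightComplex h₁ N N' h₂ L L' d) (D₁ : IsDiag h₁) (D₂ : IsDiag h₂)
    {a s : ℤ} {c : ℕ} {x y : E} (hx₁ : h₁ x = (a : K) • x) (hx₂ : h₂ x = (s : K) • x)
    (hd : (L ^ c) x = (L ^ c) (d y)) :
    ∃ z, h₁ z = ((a - 1 : ℤ) : K) • z ∧ h₂ z = ((s - 1 : ℤ) : K) • z ∧
      (L ^ c) x = (L ^ c) (d z) := by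
  have hcd : ∀ y, wproj D₂ s (d y) = d (wproj D₂ (s - 1) y) := fun y => by
    have := wproj_shift D₂ (g := d) 1 (by rw [W.h₂d]; simp) (s - 1) y
    rwa [sub_add_cancel] at this
  have hcd₁ : ∀ y, wproj D₁ a (d y) = d (wproj D₁ (a - 1) y) := fun y => by
    have := wproj_shift D₁ (g := d) 1 (by rw [W.h₁d]; simp) (a - 1) y
    rwa [sub_add_cancel] at this
  have hLk : ∀ y, wproj D₂ (s + 2 * c) ((L ^ c) y) = (L ^ c) (wproj D₂ s y) := fun y => by
    refine wproj_shift D₂ (g := L ^ c) (2 * (c : ℤ)) ?_ s y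
    have : ∀ c : ℕ, h₂ * L ^ c - L ^ c * h₂ = ((2 * (c : ℤ) : ℤ) : K) • L ^ c := by
      intro c
      induction c with
      | zero => simp
      | succ c ih =>
        have h1 := W.t₂.he
        calc h₂ * L ^ (c + 1) - L ^ (c + 1) * h₂
            = (h₂ * L ^ c - L ^ c * h₂) * L + L ^ c * (h₂ * L - L * h₂) := by
              rw [pow_succ]; noncomm_ring
          _ = _ := by
              rw [ih, h1, smul_mul_assoc, mul_smul_comm, ← pow_succ, ← add_smul]
              congr 1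
              push_cast
              ring
    exact this c
  have hL₁ : ∀ y, wproj D₁ a ((L ^ c) y) = (L ^ c) (wproj D₁ a y) := fun y =>
    wproj_comm D₁ (g := L ^ c) ((show Commute h₁ L from W.h₁L).pow_right c) a y
  refine ⟨wproj D₁ (a - 1) (wproj D₂ (s - 1) y), h_wproj D₁ _ _, ?_, ?_⟩
  · rw [← wproj_comm D₁ (g := h₂) W.h₁h₂, h_wproj, map_smul]
  · have e1 := congrArg (wproj D₂ (s + 2 * c)) hd
    rw [hLk, hLk, wproj_same D₂ hx₂, hcd] at e1
    have e2 := congrArg (wproj D₁ a) e1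
    rwa [hL₁, hL₁, wproj_same D₁ hx₁, hcd₁] at e2

/-- `P` is a projection which commutes with the operators, and the Laplace operator is nilpotent on
its image. -/
structure IsNull (h₁ N N' h₂ L L' d P : Module.End K E) : Prop where
  W : IsWeightComplex h₁ N N' h₂ L L' d
  idem : ∀ x, P (P x) = P x
  cN : Commute N P
  cN' : Commute N' P
  cL : Commute L P
  cL' : Commute L' P
  cd : Commute d P
  nil : ∃ m : ℕ, ∀ x, (lap N' L' d ^ m) (P x) = 0
  D₁ : IsDiag h₁
  D₂ : IsDiag h₂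

namespace IsNull

variable [CharZero K] [FiniteDimensional K E]
  {h₁ N N' h₂ L L' d P : Module.End K E} (T : IsNull h₁ N N' h₂ L L' d P)
include T

lemma ch₁ : Commute h₁ P := by
  rw [← T.W.t₁.ef]
  exact (T.cN.mul_left T.cN').sub_left (T.cN'.mul_left T.cN)

lemma ch₂ : Commute h₂ P := by
  rw [← T.W.t₂.ef]
  exact (T.cL.mul_left T.cL').sub_left (T.cL'.mul_left T.cL)

lemma clap : Commute (lap N' L' d) P := by
  have h1 : Commute (L' * d - d * L') P := (T.cL'.mul_left T.cd).sub_left (T.cd.mul_left T.cL')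
  have h2 : Commute (cod N' L' d) P := (T.cN'.mul_left h1).sub_left (h1.mul_left T.cN')
  exact (T.cd.mul_left h2).add_left (h2.mul_left T.cd)

lemma vd {a c : ℤ} {x : E} (hx : Vec P h₁ h₂ a c x) : Vec P h₁ h₂ (a + 1) (c + 1) (d x) :=
  hx.map T.cd 1 1 (by rw [T.W.h₁d]; simp) (by rw [T.W.h₂d]; simp)

lemma vN {a c : ℤ} {x : E} (hx : Vec P h₁ h₂ a c x) : Vec P h₁ h₂ (a + 2) c (N x) :=
  (hx.map T.cN 2 0 (by rw [T.W.t₁.he]; simp)
    (by rw [T.W.h₂N, sub_self]; simp)).cast rfl (by ring)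

lemma vNk {a c : ℤ} {x : E} (hx : Vec P h₁ h₂ a c x) (k : ℕ) :
    Vec P h₁ h₂ (a + 2 * k) c ((N ^ k) x) := by
  induction k with
  | zero => exact hx.cast (by simp) rfl
  | succ k ih =>
    rw [pow_succ', Module.End.mul_apply]
    exact (T.vN ih).cast (by push_cast; ring) rfl

lemma vN' {a c : ℤ} {x : E} (hx : Vec P h₁ h₂ a c x) : Vec P h₁ h₂ (a - 2) c (N' x) :=
  (hx.map T.cN' (-2) 0 (by rw [T.W.t₁.hf]; simp)
    (by rw [T.W.h₂N', sub_self]; simp)).cast (by ring) (by ring)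

lemma vN'k {a c : ℤ} {x : E} (hx : Vec P h₁ h₂ a c x) (k : ℕ) :
    Vec P h₁ h₂ (a - 2 * k) c ((N' ^ k) x) := by
  induction k with
  | zero => exact hx.cast (by simp) rfl
  | succ k ih =>
    rw [pow_succ', Module.End.mul_apply]
    exact (T.vN' ih).cast (by push_cast; ring) rfl

lemma vL {a c : ℤ} {x : E} (hx : Vec P h₁ h₂ a c x) : Vec P h₁ h₂ a (c + 2) (L x) :=
  (hx.map T.cL 0 2 (by rw [T.W.h₁L, sub_self]; simp)
    (by rw [T.W.t₂.he]; simp)).cast (by ring) rfl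

lemma vLk {a c : ℤ} {x : E} (hx : Vec P h₁ h₂ a c x) (k : ℕ) :
    Vec P h₁ h₂ a (c + 2 * k) ((L ^ k) x) := by
  induction k with
  | zero => exact hx.cast rfl (by simp)
  | succ k ih =>
    rw [pow_succ', Module.End.mul_apply]
    exact (T.vL ih).cast rfl (by push_cast; ring)

lemma vlap {a c : ℤ} {x : E} (hx : Vec P h₁ h₂ a c x) : Vec P h₁ h₂ a c (lap N' L' d x) := by
  refine ⟨?_, ?_, ?_⟩
  · rw [← apply_eq T.clap.eq, hx.p]
  · rw [apply_eq T.W.h₁_lap.eq, hx.w₁, map_smul]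
  · rw [apply_eq T.W.h₂_lap.eq, hx.w₂, map_smul]

lemma vlapk {a c : ℤ} {x : E} (hx : Vec P h₁ h₂ a c x) (m : ℕ) :
    Vec P h₁ h₂ a c ((lap N' L' d ^ m) x) := by
  induction m with
  | zero => exact hx
  | succ m ih =>
    rw [pow_succ', Module.End.mul_apply]
    exact T.vlap ih

lemma sub {a c : ℤ} {x y : E} (hx : Vec P h₁ h₂ a c x) (hy : Vec P h₁ h₂ a c y) :
    Vec P h₁ h₂ a c (x - y) := by
  have := hx.add (hy.smul (-1))
  rwa [neg_one_smul, ← sub_eq_add_neg] at this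

/-- The homogeneous part of an equation `L ^ c x = L ^ c d y`. -/
lemma hom {a s : ℤ} {c : ℕ} {x y : E} (hx : Vec P h₁ h₂ a s x) (hd : (L ^ c) x = (L ^ c) (d y)) :
    ∃ z, Vec P h₁ h₂ (a - 1) (s - 1) z ∧ (L ^ c) x = (L ^ c) (d z) := by
  obtain ⟨z, hz₁, hz₂, hz⟩ := hom_pow T.W T.D₁ T.D₂ hx.w₁ hx.w₂ hd
  have hLP : ∀ y, P ((L ^ c) y) = (L ^ c) (P y) := fun y =>
    (pow_apply_eq T.cL.eq c y).symm
  have hdP : ∀ y, P (d y) = d (P y) := fun y => (apply_eq T.cd.eq y).symm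
  refine ⟨P z, ⟨T.idem _, ?_, ?_⟩, ?_⟩
  · rw [apply_eq T.ch₁.eq, hz₁, map_smul]
  · rw [apply_eq T.ch₂.eq, hz₂, map_smul]
  · have e3 := congrArg P hz
    rwa [hLP, hLP, hx.p, hdP] at e3

lemma surjL {a : ℤ} {k : ℕ} {y : E} (hy : Vec P h₁ h₂ a k y) :
    ∃ x, Vec P h₁ h₂ a (-(k : ℤ)) x ∧ (L ^ k) x = y := by
  obtain ⟨x, hx₂, hxy, hall⟩ := T.W.t₂.surj' k (y := y) (by simpa using hy.w₂)
  have hP : P x = x := by
    have := hall (1 - P) ((Commute.one_left L).sub_left T.cL.symm)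
      ((Commute.one_left h₂).sub_left T.ch₂.symm) (by
        rw [LinearMap.sub_apply, Module.End.one_apply, hy.p, sub_self])
    rw [LinearMap.sub_apply, Module.End.one_apply, sub_eq_zero] at this
    exact this.symm
  have hx₁ : h₁ x = (a : K) • x := by
    have hc : Commute h₁ L := T.W.h₁L
    have hc' : Commute h₁ h₂ := T.W.h₁h₂
    have := hall (h₁ - (a : K) • 1) (hc.sub_left ((Commute.one_left L).smul_left _))
      (hc'.sub_left ((Commute.one_left h₂).smul_left _)) (by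
        rw [LinearMap.sub_apply, LinearMap.smul_apply, Module.End.one_apply, hy.w₁, sub_self])
    rwa [LinearMap.sub_apply, LinearMap.smul_apply, Module.End.one_apply, sub_eq_zero] at this
  exact ⟨x, ⟨hP, hx₁, by simpa using hx₂⟩, hxy⟩

omit T in
/-- The claim for `c`: `L ^ c d` vanishes on the null component. -/
def Claim (h₁ h₂ L d P : Module.End K E) (c : ℕ) : Prop :=
  ∀ (a s : ℤ) (x : E), Vec P h₁ h₂ a s x → (L ^ c) (d x) = 0

section Step

variable {c : ℕ} (hc : Claim h₁ h₂ L d P (c + 1)) (hS : VSurj h₁ N h₂ L d c (-((c : ℤ) + 1)))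
  (hI : VInj h₁ N h₂ L d c (-(c : ℤ))) (H : HasLefschetz h₂ L h₁ d)

include hc in
lemma low {a s : ℤ} {w : E} (hw : Vec P h₁ h₂ a s w) (hs : s ≤ -((c : ℤ) + 2)) : d w = 0 := by
  obtain ⟨j, hj⟩ := Int.eq_ofNat_of_zero_le (show 0 ≤ -((c : ℤ) + 2) - s by omega)
  have h1 := T.vd hw
  have h2 := hc a s w hw
  refine T.W.t₂.inj (j + (c + 1)) (x := d w) ?_ ?_
  · rw [h1.w₂]
    congr 1
    have : s + 1 = -((j + (c + 1) : ℕ) : ℤ) := by push_cast; omega
    rw [this]
    push_cast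
    ring
  · rw [pow_add, Module.End.mul_apply, h2, map_zero]

lemma inj_low {a s : ℤ} {w : E} (hw : Vec P h₁ h₂ a s w) (hs : s ≤ -(c : ℤ))
    (h0 : (L ^ c) w = 0) : w = 0 := by
  obtain ⟨j, hj⟩ := Int.eq_ofNat_of_zero_le (show 0 ≤ -(c : ℤ) - s by omega)
  refine T.W.t₂.inj (j + c) (x := w) ?_ ?_
  · rw [hw.w₂]
    congr 1
    have : s = -((j + c : ℕ) : ℤ) := by push_cast; omega
    rw [this]
    push_cast
    ring
  · rw [pow_add, Module.End.mul_apply, h0, map_zero]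

include hc hS in
/-- `N ^ k z` closed implies `z` closed, in weight `-(c + 1)`. -/
lemma lift {k : ℕ} {z : E} (hz : Vec P h₁ h₂ (-(k : ℤ)) (-((c : ℤ) + 1)) z)
    (h0 : d ((N ^ k) z) = 0) : d z = 0 := by
  have hy := (T.vNk hz k).cast (show -(k : ℤ) + 2 * k = k by ring) rfl
  obtain ⟨x, w, hx₁, hx₂, hx, hw⟩ := hS k ((N ^ k) z) (by
    rw [hy.w₁]; simp) hy.w₂ (by rw [h0, map_zero])
  -- replace `x` by `P x`
  have hPx : Vec P h₁ h₂ (-(k : ℤ)) (-((c : ℤ) + 1)) (P x) := by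
    refine ⟨T.idem x, ?_, ?_⟩
    · rw [apply_eq T.ch₁.eq, hx₁, map_smul]
      simp
    · rw [apply_eq T.ch₂.eq, hx₂, map_smul]
  have hLP : ∀ y, P ((L ^ c) y) = (L ^ c) (P y) := fun y => (pow_apply_eq T.cL.eq c y).symm
  have hNP : ∀ y, P ((N ^ k) y) = (N ^ k) (P y) := fun y => (pow_apply_eq T.cN.eq k y).symm
  have hdP : ∀ y, P (d y) = d (P y) := fun y => (apply_eq T.cd.eq y).symm
  have h1 : (L ^ c) ((N ^ k) z - (N ^ k) (P x)) = (L ^ c) (d (P w)) := by
    have := congrArg P hw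
    rwa [hLP, hLP, map_sub, hy.p, hNP, hdP] at this
  have hv := T.sub hy ((T.vNk hPx k).cast (show -(k : ℤ) + 2 * k = k by ring) rfl)
  obtain ⟨w', hw', h2⟩ := T.hom hv h1
  have h3 : d w' = 0 := T.low hc hw' (by omega)
  rw [h3, map_zero] at h2
  have h4 := T.inj_low hv (by omega) h2
  rw [← map_sub] at h4
  have h5 : z - P x = 0 := by
    refine T.W.t₁.inj k ?_ h4
    rw [(T.sub hz hPx).w₁]
    simp
  have h6 : (L ^ c) (d z) = 0 := by
    rw [sub_eq_zero.1 h5, ← hdP, ← hLP, hx, map_zero]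
  exact T.inj_low (T.vd hz) (by omega) h6

include hI in
lemma back {k : ℕ} {y z₁ : E} (hy : Vec P h₁ h₂ (-(k : ℤ)) (-(c : ℤ)) y) (h0 : (L ^ c) (d y) = 0)
    (h1 : (N ^ k) y = d z₁) : ∃ z, Vec P h₁ h₂ (-(k : ℤ) - 1) (-((c : ℤ) + 1)) z ∧ y = d z := by
  obtain ⟨z, hz⟩ := hI k y z₁ (by rw [hy.w₁]; simp) hy.w₂ h0 (by rw [h1])
  obtain ⟨z', hz', h2⟩ := T.hom hy hz
  refine ⟨z', hz'.cast rfl (by ring), ?_⟩
  rw [← sub_eq_zero]
  refine T.inj_low (T.sub hy ((T.vd hz').cast (by ring) (by ring))) le_rfl ?_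
  rw [map_sub, h2, sub_self]

include hc H in
lemma zero_of {a : ℤ} {z y : E} (hz : Vec P h₁ h₂ a (-((c : ℤ) + 1)) z) (h0 : d z = 0)
    (h1 : (L ^ (c + 1)) z = (L ^ c) (d y)) : z = 0 := by
  have h2 : z ∈ LinearMap.range d := by
    refine (H (c + 1) a).1 z h0 ?_ hz.w₁ ?_
    · rw [hz.w₂]
      push_cast
      rfl
    · exact ⟨(L ^ c) y, by rw [h1, pow_apply_eq T.W.Ld]⟩
  obtain ⟨w, hw⟩ := h2
  obtain ⟨w', hw', h3⟩ := T.hom (c := 0) hz (y := w) (by rw [hw])
  have h4 : d w' = 0 := T.low hc hw' (by omega)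
  rwa [h4, map_zero, pow_zero, Module.End.one_apply] at h3

include hc in
/-- The Laplace operator in weight `-(c + 1)`. -/
lemma lap_eq {a : ℤ} {z : E} (hz : Vec P h₁ h₂ a (-((c : ℤ) + 1)) z) :
    (L ^ (c + 1)) (lap N' L' d z) = (-((c : K) + 1)) • (L ^ c) (d (N' (d z))) := by
  have hall : ∀ y, P y = y → (L ^ (c + 1)) (d y) = 0 := by
    intro y hy
    have h1 : (L ^ (c + 1)) * d * P = 0 := by
      refine zero_of_weight T.D₁ fun a y hy => ?_
      rw [← wproj_same T.D₁ hy]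
      have h2 : (L ^ (c + 1)) * d * P * wproj T.D₁ a = 0 := by
        refine zero_of_weight T.D₂ fun s z hz => ?_
        rw [Module.End.mul_apply, Module.End.mul_apply, Module.End.mul_apply]
        refine hc a s _ ⟨T.idem _, ?_, ?_⟩
        · rw [apply_eq T.ch₁.eq, h_wproj, map_smul]
        · have hc₃ : h₂ (wproj T.D₁ a z) = wproj T.D₁ a (h₂ z) :=
            (wproj_comm T.D₁ (g := h₂) T.W.h₁h₂ a z).symm
          rw [apply_eq T.ch₂.eq, hc₃, hz, map_smul, map_smul]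
      exact LinearMap.congr_fun h2 y
    have := LinearMap.congr_fun h1 y
    rwa [Module.End.mul_apply, Module.End.mul_apply, hy, LinearMap.zero_apply] at this
  have hPN' : ∀ y, P y = y → P (N' y) = N' y := fun y hy => by rw [← apply_eq T.cN'.eq, hy]
  have hPL' : ∀ y, P y = y → P (L' y) = L' y := fun y hy => by rw [← apply_eq T.cL'.eq, hy]
  have hPd : ∀ y, P y = y → P (d y) = d y := fun y hy => by rw [← apply_eq T.cd.eq, hy]
  have hdd : ∀ y, d (d y) = 0 := fun y => by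
    rw [← Module.End.mul_apply, T.W.dd, LinearMap.zero_apply]
  have e1 : lap N' L' d z = d (cod N' L' d z) +
      (-(N' (d (L' (d z)))) - L' (d (N' (d z))) + d (L' (N' (d z)))) := by
    simp only [lap, LinearMap.add_apply, Module.End.mul_apply]
    congr 1
    simp only [cod, LinearMap.sub_apply, Module.End.mul_apply, hdd, map_zero, zero_sub, map_neg]
    abel
  have hcod : P (cod N' L' d z) = cod N' L' d z := by
    simp only [cod, LinearMap.sub_apply, Module.End.mul_apply, map_sub]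
    rw [hPN' _ (hPL' _ (hPd _ hz.p)), hPN' _ (hPd _ (hPL' _ hz.p)),
      hPL' _ (hPd _ (hPN' _ hz.p)), hPd _ (hPL' _ (hPN' _ hz.p))]
  have hy : Vec P h₁ h₂ (a + 1 - 2 + 1) (-((c : ℤ) + 1) + 1 + 1) (d (N' (d z))) :=
    T.vd (T.vN' (T.vd hz))
  have e2 := T.W.t₂.pow_f (c := ((-((c : ℤ) + 1) + 1 + 1 : ℤ) : K)) (x := d (N' (d z))) hy.w₂ c
  rw [e1, map_add, map_add, map_sub, map_neg, hall _ hcod, zero_add,
    hall _ (hPL' _ (hPN' _ (hPd _ hz.p))), add_zero, pow_apply_eq T.W.N'L.symm,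
    hall _ (hPL' _ (hPd _ hz.p)), map_zero, neg_zero, zero_sub, e2,
    hall _ (hPN' _ (hPd _ hz.p)), map_zero, zero_add, neg_smul]
  congr 2
  push_cast
  ring


/-- The claim for the elements of weight `-(c + 1)` killed by the Laplace operator, by descending
induction on the weight for `h₁`. -/
def Sub (h₁ h₂ N' L' d P : Module.End K E) (c : ℕ) (a : ℤ) : Prop :=
  ∀ z, Vec P h₁ h₂ a (-((c : ℤ) + 1)) z → lap N' L' d z = 0 → d z = 0

include hc in
lemma lap_zero {a : ℤ} {z : E} (hz : Vec P h₁ h₂ a (-((c : ℤ) + 1)) z)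
    (h0 : lap N' L' d z = 0) : (L ^ c) (d (N' (d z))) = 0 := by
  have h1 := T.lap_eq hc hz
  rw [h0, map_zero] at h1
  exact (smul_eq_zero.1 h1.symm).resolve_left (neg_ne_zero.2 (Nat.cast_add_one_ne_zero c))

/-- The differential of `N' ^ m w`. -/
lemma d_N'pow {w : E} (hw : d w = 0) (m : ℕ) :
    d ((N' ^ m) w) = (m : K) • (N' ^ (m - 1)) (d (N' w)) := by
  have hu := T.W.uu'
  set u := N' * d - d * N' with hu'
  have h1 : ∀ y, d (N' y) = N' (d y) - u y := fun y => by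
    rw [hu', LinearMap.sub_apply, Module.End.mul_apply, Module.End.mul_apply]
    abel
  have h2 : ∀ m : ℕ, ∀ y, u ((N' ^ m) y) = (N' ^ m) (u y) := fun m y =>
    (pow_apply_eq hu m y).symm
  have h3 : ∀ m : ℕ, d ((N' ^ (m + 1)) w) = -(((m + 1 : ℕ) : K) • (N' ^ m) (u w)) := by
    intro m
    induction m with
    | zero => simp [h1, hw]
    | succ m ih =>
      rw [pow_succ' N' (m + 1), Module.End.mul_apply, h1, ih, h2, map_neg, map_smul,
        ← Module.End.mul_apply, ← pow_succ', sub_eq_add_neg, ← neg_add]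
      congr 1
      have h4 : ∀ (r : K) (X : E), r • X + X = (r + 1) • X := fun r X => by
        rw [add_smul, one_smul]
      rw [h4]
      congr 1
      push_cast
      ring
  cases m with
  | zero => simp [hw]
  | succ m =>
    rw [h3, h1, hw, map_zero, zero_sub, map_neg, smul_neg, Nat.add_sub_cancel]

include hc hS hI in
lemma sub_step {a : ℤ} (ih : ∀ b, a < b → Sub h₁ h₂ N' L' d P c b) :
    Sub h₁ h₂ N' L' d P c a := by
  intro z hz h0
  rcases lt_or_ge a 0 with ha | ha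
  · obtain ⟨k, hk⟩ := Int.eq_ofNat_of_zero_le (show 0 ≤ -a by omega)
    obtain rfl : a = -(k : ℤ) := by omega
    refine T.lift hc hS hz (ih _ ?_ _ (T.vNk hz k) ?_)
    · omega
    · rw [← pow_apply_eq T.W.N_lap.eq k, h0, map_zero]
  · obtain ⟨k, rfl⟩ := Int.eq_ofNat_of_zero_le ha
    have hw : Vec P h₁ h₂ ((k : ℤ) + 1) (-(c : ℤ)) (d z) := (T.vd hz).cast rfl (by ring)
    have hNw : N (d z) = 0 := by
      rw [apply_eq T.W.Nd]
      refine ih _ ?_ _ (T.vN hz) ?_
      · omega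
      · rw [← apply_eq T.W.N_lap.eq, h0, map_zero]
    have hdw : d (d z) = 0 := by
      rw [← Module.End.mul_apply, T.W.dd, LinearMap.zero_apply]
    have h1 := T.lap_zero hc hz h0
    have hw' : Vec P h₁ h₂ (-((k + 1 : ℕ) : ℤ)) (-(c : ℤ)) ((N' ^ (k + 1)) (d z)) :=
      (T.vN'k hw (k + 1)).cast (by push_cast; ring) rfl
    have h2 : (L ^ c) (d ((N' ^ (k + 1)) (d z))) = 0 := by
      have hc' : Commute (N' ^ (k + 1 - 1)) (L ^ c) :=
        ((show Commute N' L from T.W.N'L).pow_left _).pow_right _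
      rw [T.d_N'pow hdw, map_smul, ← apply_eq hc'.eq, h1, map_zero, smul_zero]
    have h3 : ∀ m : ℕ, m ≤ k + 1 → ∃ r : K, r ≠ 0 ∧ (N ^ m) ((N' ^ m) (d z)) = r • d z := by
      intro m
      induction m with
      | zero => exact fun _ => ⟨1, one_ne_zero, by simp⟩
      | succ m ihm =>
        intro hm
        obtain ⟨r, hr, hr'⟩ := ihm (by omega)
        have e1 := T.W.t₁.pow_f (T.vN'k hw m).w₁ m
        have e2 : (N ^ (m + 1)) ((N' ^ m) (d z)) = 0 := by
          rw [pow_succ', Module.End.mul_apply, hr', map_smul, hNw, smul_zero]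
        refine ⟨((m : K) + 1) * (((k : ℤ) + 1 - 2 * m : ℤ) + m) * r, ?_, ?_⟩
        · refine mul_ne_zero (mul_ne_zero (Nat.cast_add_one_ne_zero m) ?_) hr
          have e3 : (((k : ℤ) + 1 - 2 * m : ℤ) : K) + m = (((k + 1 - m : ℕ)) : K) := by
            rw [Nat.cast_sub (by omega)]
            push_cast
            ring
          rw [e3]
          exact Nat.cast_ne_zero.2 (by omega)
        · rw [pow_succ' N' m, Module.End.mul_apply, e1, e2, map_zero, zero_add, hr', smul_smul]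
    obtain ⟨r, hr, hr'⟩ := h3 (k + 1) le_rfl
    obtain ⟨z', hz', h4⟩ := T.back hI hw' h2 (z₁ := r • z) (by rw [hr', map_smul])
    have hz'' : Vec P h₁ h₂ (-((k + 2 : ℕ) : ℤ)) (-((c : ℤ) + 1)) z' :=
      hz'.cast (by push_cast; ring) rfl
    have h5 : d ((N ^ (k + 2)) z') = 0 := by
      rw [← pow_apply_eq T.W.Nd, ← h4, pow_succ' N (k + 1), Module.End.mul_apply, hr', map_smul,
        hNw, smul_zero]
    have h6 := T.lift hc hS hz'' h5
    rw [← h4] at h6
    rw [h6, map_zero] at hr'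
    exact (smul_eq_zero.1 hr'.symm).resolve_left hr

omit T in
lemma exists_bound (h : Module.End K E) :
    ∃ B : ℤ, ∀ a : ℤ, B < a → ∀ z, h z = (a : K) • z → z = 0 := by
  have h1 : (((↑) : ℤ → K) '' {j : ℤ | ∃ z, h z = (j : K) • z ∧ z ≠ 0}).Finite := by
    refine Set.Finite.subset (Module.End.finite_hasEigenvalue h) ?_
    rintro _ ⟨j, ⟨x, hx, hne⟩, rfl⟩
    exact Module.End.hasEigenvalue_of_hasEigenvector ⟨Module.End.mem_eigenspace_iff.2 hx, hne⟩
  have h2 : {j : ℤ | ∃ z, h z = (j : K) • z ∧ z ≠ 0}.Finite :=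
    h1.of_finite_image (fun a _ b _ hab => by exact_mod_cast hab)
  obtain ⟨B, hB⟩ := h2.bddAbove
  refine ⟨B, fun a ha z hz => ?_⟩
  by_contra hne
  have := hB ⟨z, hz, hne⟩
  omega

include hc hS hI in
lemma sub_all (a : ℤ) : Sub h₁ h₂ N' L' d P c a := by
  obtain ⟨B, hB⟩ := exists_bound h₁
  have key : ∀ m : ℕ, ∀ a : ℤ, B - m < a → Sub h₁ h₂ N' L' d P c a := by
    intro m
    induction m with
    | zero =>
      intro a ha z hz _
      rw [hB a (by simpa using ha) z hz.w₁, map_zero]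
    | succ m ih =>
      intro a ha
      refine T.sub_step hc hS hI fun b hb => ih b ?_
      push_cast at ha
      omega
  obtain ⟨m, hm⟩ := Int.eq_ofNat_of_zero_le (show 0 ≤ |B - a| + 1 by positivity)
  refine key m a ?_
  have := le_abs_self (B - a)
  omega

include hc hS hI H in
lemma closed_low {a : ℤ} {z : E} (hz : Vec P h₁ h₂ a (-((c : ℤ) + 1)) z) : d z = 0 := by
  have key : ∀ m : ℕ, (lap N' L' d ^ m) z = 0 → d z = 0 := by
    intro m
    induction m with
    | zero =>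
      intro h
      have : z = 0 := h
      rw [this, map_zero]
    | succ m ih =>
      intro h
      have hv := T.vlapk hz m
      have h1 : d ((lap N' L' d ^ m) z) = 0 := by
        refine T.sub_all hc hS hI a _ hv ?_
        rwa [← Module.End.mul_apply, ← pow_succ']
      cases m with
      | zero => exact h1
      | succ m =>
        apply ih
        refine T.zero_of hc H hv h1 (y := (-((c : K) + 1)) • N' (d ((lap N' L' d ^ m) z))) ?_
        rw [pow_succ' (lap N' L' d) m, Module.End.mul_apply, T.lap_eq hc (T.vlapk hz m), map_smul,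
          map_smul]
  obtain ⟨m, hm⟩ := T.nil
  refine key m ?_
  rw [← hz.p, hm]

include hc hS hI H in
theorem claim_step : Claim h₁ h₂ L d P c := by
  intro a s x hx
  rcases lt_trichotomy s (-(c : ℤ)) with hs | hs | hs
  · -- low weights
    rcases eq_or_ne s (-((c : ℤ) + 1)) with rfl | hne
    · rw [T.closed_low hc hS hI H hx, map_zero]
    · rw [T.low hc hx (by omega), map_zero]
  · subst hs
    have hy : Vec P h₁ h₂ (a + 1) ((c + 1 : ℕ) : ℤ) ((L ^ c) (d x)) :=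
      (T.vLk (T.vd hx) c).cast rfl (by push_cast; ring)
    obtain ⟨z, hz, hzy⟩ := T.surjL hy
    have hz' : Vec P h₁ h₂ (a + 1) (-((c : ℤ) + 1)) z := hz.cast rfl (by push_cast; ring)
    have h1 := T.closed_low hc hS hI H hz'
    have h2 := T.zero_of hc H hz' h1 (y := x) hzy
    rw [← hzy, h2, map_zero]
  · obtain ⟨t, ht⟩ := Int.eq_ofNat_of_zero_le (show 0 ≤ s + 2 * c - (c + 1) by omega)
    have hy : Vec P h₁ h₂ a ((c + 1 + t : ℕ) : ℤ) ((L ^ c) x) :=
      (T.vLk hx c).cast rfl (by push_cast; omega)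
    obtain ⟨z, hz, hzy⟩ := T.surjL hy
    rw [pow_apply_eq T.W.Ld, ← hzy, pow_add, Module.End.mul_apply, ← pow_apply_eq T.W.Ld (c + 1)]
    exact hc a _ _ (T.vLk hz t)

end Step

/-- **The Lefschetz properties of the sections imply the strong form.** -/
theorem strong {n : ℕ} (hn : Claim h₁ h₂ L d P n) (hS : ∀ c : ℕ, c < n → VSurj h₁ N h₂ L d c (-((c : ℤ) + 1)))
    (hI : ∀ c : ℕ, c < n → VInj h₁ N h₂ L d c (-(c : ℤ))) (H : HasLefschetz h₂ L h₁ d) (x : E) :
    d (P x) = 0 := by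
  have key : ∀ m : ℕ, m ≤ n → Claim h₁ h₂ L d P (n - m) := by
    intro m
    induction m with
    | zero => exact fun _ => hn
    | succ m ih =>
      intro hm
      have h1 := ih (by omega)
      rw [show n - m = n - (m + 1) + 1 by omega] at h1
      exact T.claim_step h1 (hS _ (by omega)) (hI _ (by omega)) H
  have h0 := key n le_rfl
  rw [Nat.sub_self] at h0
  refine strong_of_hom T.W T.D₁ T.D₂ T.ch₁ T.ch₂ T.idem ?_ x
  intro a s y hy hy₁ hy₂
  exact h0 a s y ⟨hy, hy₁, hy₂⟩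

end IsNull

end Pool.Agent.H849.NC
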