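import Pool.Agent.H849.SG.Defs
import Pool.Agent.H849.SF.Defs

/-!
# Lefschetz maps of polynomial class to a product with a variety of good reduction: definitions

Let `X` be a proper strictly semistable scheme with a polarization `L`, and let `G` be a scheme of good
reduction. We consider Lefschetz maps `f : Z → X × G` such that the class `f_* 1` is
`∑ L ^ i ⊗ β_i`, where the `β_i` are arbitrary classes on `G`. For example, `Z` is a transversal
complete intersection of ample divisors with the classes `n_i L ⊗ 1 + 1 ⊗ B_i`, where the `B_i` are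
arbitrary classes of divisors on `G`, the zero scheme of a section of an ample vector bundle with
such Chern classes, or a covering of `X × G` ramified along such divisors.
-/

set_option autoImplicit false

namespace Pool.Agent.H849.NC

open Module TensorProduct Pool.Agent.Y143 Pool.Agent.H849.SEC Pool.Agent.H849.LM
open Pool.Agent.H849.SG

universe u v

section Variety

variable {Ω : Type u} [Field Ω] {H K K' U : Type v} [AddCommGroup H] [Module Ω H]
  [AddCommGroup K] [Module Ω K] [AddCommGroup K'] [Module Ω K'] [AddCommGroup U] [Module Ω U]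

/-- The cup product with the class `∑ L ^ i ⊗ β_i`, `i < r`, where `M i` is the cup product with the
class `β_i`. -/
noncomputable def polyOp (L : Module.End Ω H) (M : ℕ → Module.End Ω U) (r : ℕ) :
    Module.End Ω (H ⊗[Ω] U) :=
  ∑ i ∈ Finset.range r, TensorProduct.map (L ^ i) (M i)

/-- The projection formula `⟨f x, f y⟩ = ⟨x, f_* 1 ∪ y⟩` with the class `f_* 1 = ∑ L ^ i ⊗ β_i`. -/
def PolyProjection (κ : (H ⊗[Ω] U) ≃ₗ[Ω] K) (B : K →ₗ[Ω] K →ₗ[Ω] Ω) (B' : K' →ₗ[Ω] K' →ₗ[Ω] Ω)
    (L : Module.End Ω H) (M : ℕ → Module.End Ω U) (r : ℕ) (f : K →ₗ[Ω] K') : Prop :=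
  ∀ x y, ev B' (f x) (f (κ y)) = ev B x (κ (polyOp L M r y))

end Variety

variable {Ω : Type u} [Field Ω] {Γ Γ' Γ'' : Type}

/-- The restriction of the class `f_* 1` of `f : Z → Y = X × G` to the strata `Y^(a+1)(X) × G` is
`∑ L ^ i ⊗ β_i`, `i < r`, where `M i` is the cup product with the class `β_i` of `G`. -/
def HasPolyClass {X : StrataData.{u, v} Ω Γ} {Y : StrataData.{u, v} Ω Γ'}
    {Z : StrataData.{u, v} Ω Γ''} (P : Product X Y) (f : PullBacks Y Z)
    (M : ℕ → Module.End Ω P.U) (r : ℕ) : Prop :=
  ∀ a : ℕ, PolyProjection (P.κ a) (Y.pair a) (Z.pair a) (X.lef a) M r (f a)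

end Pool.Agent.H849.NC
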