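import Pool.Agent.H849.NC.Conv
import Pool.Agent.H849.SF.Tot

/-!
# Existence of the dual Lefschetz operator
-/

set_option autoImplicit false
set_option linter.unusedSectionVars false

open Module

namespace Pool.Agent.H849.NC

open Pool.Agent.H849.SF

section Abs

variable {K : Type*} [Field K] {V : Type*} [AddCommGroup V] [Module K V] [CharZero K]
  [FiniteDimensional K V]

/-- Linear maps on the weight spaces can be glued. -/
lemma exists_glue {h : Module.End K V} (hd : IsDiag h) (g : ℤ → Module.End K V) :
    ∃ f : Module.End K V, ∀ (c : ℤ) x, h x = (c : K) • x → f x = g c x := by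
  have h1 : (((↑) : ℤ → K) '' {j : ℤ | ∃ z, h z = (j : K) • z ∧ z ≠ 0}).Finite := by
    refine Set.Finite.subset (Module.End.finite_hasEigenvalue h) ?_
    rintro _ ⟨j, ⟨x, hx, hne⟩, rfl⟩
    exact Module.End.hasEigenvalue_of_hasEigenvector ⟨Module.End.mem_eigenspace_iff.2 hx, hne⟩
  have h2 : {j : ℤ | ∃ z, h z = (j : K) • z ∧ z ≠ 0}.Finite :=
    h1.of_finite_image (fun a _ b _ hab => by exact_mod_cast hab)
  refine ⟨∑ c ∈ h2.toFinset, g c * wproj hd c, fun c x hx => ?_⟩
  rw [LinearMap.sum_apply]
  by_cases hc : c ∈ h2.toFinset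
  · rw [Finset.sum_eq_single c]
    · rw [Module.End.mul_apply, wproj_same hd hx]
    · intro b _ hb
      rw [Module.End.mul_apply, wproj_ne hd hx hb.symm, map_zero]
    · exact fun h => absurd hc h
  · have hx0 : x = 0 := by
      by_contra hne
      exact hc (h2.mem_toFinset.2 ⟨x, hx, hne⟩)
    subst hx0
    simp

variable {h e : Module.End K V} (hd : IsDiag h) (he : h * e - e * h = (2 : K) • e)

include he in
lemma w_e {c : ℤ} {x : V} (hx : h x = (c : K) • x) : h (e x) = ((c + 2 : ℤ) : K) • e x := by
  have h1 := LinearMap.congr_fun he x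
  simp only [LinearMap.sub_apply, Module.End.mul_apply, LinearMap.smul_apply, hx, map_smul] at h1
  rw [sub_eq_iff_eq_add] at h1
  rw [h1, ← add_smul]
  congr 1
  push_cast
  ring

include he in
lemma w_pow {c : ℤ} {x : V} (hx : h x = (c : K) • x) (k : ℕ) :
    h ((e ^ k) x) = ((c + 2 * k : ℤ) : K) • (e ^ k) x := by
  induction k with
  | zero => simpa using hx
  | succ k ih =>
    rw [pow_succ', Module.End.mul_apply, w_e he ih]
    congr 1
    push_cast
    ring

/-- The hard Lefschetz property. -/
structure HasHL (h e : Module.End K V) : Prop where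
  inj : ∀ (k : ℕ) x, h x = ((-(k : ℤ) : ℤ) : K) • x → (e ^ k) x = 0 → x = 0
  surj : ∀ (k : ℕ) y, h y = ((k : ℤ) : K) • y →
    ∃ x, h x = ((-(k : ℤ) : ℤ) : K) • x ∧ (e ^ k) x = y

variable (H : HasHL h e)

include hd H in
lemma exists_Q (k : ℕ) : ∃ Q : Module.End K V, ∀ y, h y = ((k : ℤ) : K) • y →
    h (Q y) = ((-(k : ℤ) : ℤ) : K) • Q y ∧ (e ^ k) (Q y) = y := by
  let A := h.eigenspace ((-(k : ℤ) : ℤ) : K)
  let B := h.eigenspace ((k : ℤ) : K)
  let φ : A →ₗ[K] V := (e ^ k) ∘ₗ A.subtype
  have hB : B ≤ LinearMap.range φ := by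
    intro y hy
    obtain ⟨x, hx, hxy⟩ := H.surj k y (Module.End.mem_eigenspace_iff.1 hy)
    exact ⟨⟨x, Module.End.mem_eigenspace_iff.2 hx⟩, hxy⟩
  obtain ⟨s, hs⟩ := φ.rangeRestrict.exists_rightInverse_of_surjective
    (LinearMap.range_rangeRestrict _)
  let π : V →ₗ[K] LinearMap.range φ := LinearMap.codRestrict _ (wproj hd k) fun x =>
    hB (Module.End.mem_eigenspace_iff.2 (h_wproj hd k x))
  refine ⟨A.subtype ∘ₗ s ∘ₗ π, fun y hy => ⟨?_, ?_⟩⟩
  · exact Module.End.mem_eigenspace_iff.1 (s (π y)).2
  · have h1 := congrArg Subtype.val (LinearMap.congr_fun hs (π y))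
    have h2 : (e ^ k) ((A.subtype ∘ₗ s ∘ₗ π) y) = (π y : V) := h1
    rw [h2]
    exact wproj_same hd hy

/-- The recursion for the dual operator. -/
noncomputable def dualRec (e : Module.End K V) (R : ℕ → Module.End K V) : ℕ → ℕ → Module.End K V
  | 0, _ => 0
  | j + 1, k => ((k + 2 : ℕ) : K) • R k + e * dualRec e R j (k + 2) * R k

lemma dualRec_succ (R : ℕ → Module.End K V) (j k : ℕ) (x : V) :
    dualRec e R (j + 1) k x =
      ((k + 2 : ℕ) : K) • R k x + e (dualRec e R j (k + 2) (R k x)) := rfl

include hd he H in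
/-- **Existence of the dual Lefschetz operator.** -/
theorem exists_triple : ∃ f, Triple h e f := by
  choose Q hQ using exists_Q hd H
  let R : ℕ → Module.End K V := fun k => Q (k + 2) * e ^ (k + 1)
  have hR : ∀ (k : ℕ) x, h x = ((-(k : ℤ) : ℤ) : K) • x →
      h (R k x) = ((-((k + 2 : ℕ) : ℤ) : ℤ) : K) • R k x ∧
        (e ^ (k + 2)) (R k x) = (e ^ (k + 1)) x := by
    intro k x hx
    have h1 := w_pow he hx (k + 1)
    exact hQ (k + 2) _ (by rw [h1]; congr 2; push_cast; ring)
  obtain ⟨B₀, hB₀⟩ := IsNull.exists_bound (-h)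
  obtain ⟨B, hB⟩ : ∃ B : ℕ, ∀ k : ℕ, B < k → ∀ x, h x = ((-(k : ℤ) : ℤ) : K) • x → x = 0 := by
    refine ⟨B₀.toNat, fun k hk x hx => hB₀ k (by omega) x ?_⟩
    rw [LinearMap.neg_apply, hx, ← neg_smul]
    congr 1
    push_cast
    ring
  have stab : ∀ (j k : ℕ), B < k + 2 * j → ∀ x, h x = ((-(k : ℤ) : ℤ) : K) • x →
      dualRec e R (j + 1) k x = dualRec e R j k x := by
    intro j
    induction j with
    | zero =>
      intro k hk x hx
      rw [hB k (by omega) x hx, map_zero, map_zero]
    | succ j ih =>
      intro k hk x hx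
      have h1 := ih (k + 2) (by omega) (R k x) (hR k x hx).1
      rw [dualRec_succ R (j + 1) k x, dualRec_succ R j k x, h1]
  let F : ℕ → Module.End K V := fun k => dualRec e R (B + 1) k
  have hF : ∀ (k : ℕ) x, h x = ((-(k : ℤ) : ℤ) : K) • x →
      F k x = ((k + 2 : ℕ) : K) • R k x + e (F (k + 2) (R k x)) := by
    intro k x hx
    have h1 := stab B (k + 2) (by omega) (R k x) (hR k x hx).1
    show dualRec e R (B + 1) k x = ((k + 2 : ℕ) : K) • R k x +
      e (dualRec e R (B + 1) (k + 2) (R k x))
    rw [h1, dualRec_succ]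
  have wF : ∀ (j k : ℕ) x, h x = ((-(k : ℤ) : ℤ) : K) • x →
      h (dualRec e R j k x) = ((-(k : ℤ) - 2 : ℤ) : K) • dualRec e R j k x := by
    intro j
    induction j with
    | zero => intro k x _; simp [dualRec]
    | succ j ih =>
      intro k x hx
      have h1 := ih (k + 2) (R k x) (hR k x hx).1
      have h2 := w_e he h1
      have h3 := (hR k x hx).1
      rw [dualRec_succ, map_add, map_smul, h2, h3, smul_add, smul_comm]
      congr 2
      · congr 1
        push_cast
        ring
      · congr 1
        push_cast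
        ring
  -- the operator on positive weights
  let Gp : ℕ → Module.End K V := fun k => e ^ k * F k * Q k + (k : K) • (e ^ (k - 1) * Q k)
  obtain ⟨f, hf⟩ := exists_glue hd fun c => if c ≤ 0 then F c.natAbs else Gp c.natAbs
  have hneg : ∀ (k : ℕ) x, h x = ((-(k : ℤ) : ℤ) : K) • x → f x = F k x := by
    intro k x hx
    rw [hf _ x hx, if_pos (by omega)]
    congr 2
    omega
  have hQ0 : ∀ x, h x = ((0 : ℤ) : K) • x → Q 0 x = x := by
    intro x hx
    have := (hQ 0 x (by simpa using hx)).2
    simpa using this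
  have hpos : ∀ (k : ℕ) x, h x = ((k : ℤ) : K) • x →
      f x = (e ^ k) (F k (Q k x)) + (k : K) • (e ^ (k - 1)) (Q k x) := by
    intro k x hx
    rcases Nat.eq_zero_or_pos k with rfl | hk
    · have hx0 : h x = ((0 : ℤ) : K) • x := by simpa using hx
      rw [hQ0 x hx0, hneg 0 x (by simpa using hx)]
      simp
    · rw [hf _ x hx, if_neg (by omega), Int.natAbs_natCast]
      rfl
  refine ⟨f, he, ?_, ?_⟩
  · -- the weight of `f`
    refine hd.ext fun c x hx => ?_
    have key : h (f x) = ((c - 2 : ℤ) : K) • f x := by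
      rcases le_total c 0 with hc | hc
      · obtain ⟨k, hk⟩ := Int.eq_ofNat_of_zero_le (show 0 ≤ -c by omega)
        obtain rfl : c = -(k : ℤ) := by omega
        rw [hneg k x hx]
        exact wF (B + 1) k x hx
      · obtain ⟨k, rfl⟩ := Int.eq_ofNat_of_zero_le hc
        obtain ⟨h1, -⟩ := hQ k x hx
        rw [hpos k x hx, map_add, map_smul, smul_add]
        congr 1
        · rw [w_pow he (wF (B + 1) k _ h1) k]
          congr 2
          ring
        · rcases Nat.eq_zero_or_pos k with rfl | hk
          · simp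
          · rw [w_pow he h1 (k - 1), smul_comm]
            congr 3
            push_cast [Nat.cast_sub hk]
            ring
    rw [LinearMap.sub_apply, Module.End.mul_apply, Module.End.mul_apply, key, hx, map_smul,
      LinearMap.neg_apply, LinearMap.smul_apply, ← sub_smul, ← neg_smul]
    congr 1
    push_cast
    ring
  · -- the bracket
    refine hd.ext fun c x hx => ?_
    rw [LinearMap.sub_apply, Module.End.mul_apply, Module.End.mul_apply, hx]
    have hex := w_e he hx
    rcases le_or_gt 0 c with hc | hc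
    · obtain ⟨k, rfl⟩ := Int.eq_ofNat_of_zero_le hc
      obtain ⟨h1, h2⟩ := hQ k x hx
      have h3 := hpos (k + 2) (e x) (by rw [hex]; congr 1)
      have h4 : Q (k + 2) (e x) = R k (Q k x) := by
        show Q (k + 2) (e x) = Q (k + 2) ((e ^ (k + 1)) (Q k x))
        rw [pow_succ', Module.End.mul_apply, h2]
      rw [h3, h4, hpos k x hx, hF k _ h1]
      have h5 : e ((k : K) • (e ^ (k - 1)) (Q k x)) = ((k : ℤ) : K) • x := by
        rcases Nat.eq_zero_or_pos k with rfl | hk
        · simp
        · rw [map_smul, ← Module.End.mul_apply, ← pow_succ', Nat.sub_add_cancel hk, h2]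
          push_cast
          rfl
      rw [map_add e, h5, ← Module.End.mul_apply e, ← pow_succ', map_add, map_smul,
        ← Module.End.mul_apply _ e, ← pow_succ, show k + 2 - 1 = k + 1 by omega,
        show k + 1 + 1 = k + 2 by omega]
      abel
    · rcases eq_or_ne c (-1) with rfl | hne
      · have h1 := hpos 1 (e x) (by rw [hex]; congr 1)
        have h2 : Q 1 (e x) = x := by
          obtain ⟨h3, h4⟩ := hQ 1 (e x) (by rw [hex]; congr 1)
          rw [← sub_eq_zero]
          refine H.inj 1 _ ?_ ?_
          · rw [map_sub, h3, smul_sub]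
            congr 1
          · rw [map_sub, h4, pow_one, sub_self]
        rw [h1, h2, hneg 1 x hx]
        simp
      · obtain ⟨k, hk⟩ := Int.eq_ofNat_of_zero_le (show 0 ≤ -c - 2 by omega)
        obtain rfl : c = -((k + 2 : ℕ) : ℤ) := by push_cast; omega
        have hex' : h (e x) = ((-(k : ℤ) : ℤ) : K) • e x := by
          rw [hex]
          congr 1
          push_cast
          ring
        have h2 : R k (e x) = x := by
          obtain ⟨h3, h4⟩ := hR k (e x) hex'
          rw [← sub_eq_zero]
          refine H.inj (k + 2) _ ?_ ?_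
          · rw [map_sub, h3, hx, smul_sub]
          · rw [map_sub, h4, ← Module.End.mul_apply _ e, ← pow_succ, sub_self]
        rw [hneg k (e x) hex', hF k (e x) hex', h2, hneg (k + 2) x hx]
        push_cast
        module

end Abs

universe u v

open Pool.Agent.Y143

variable {Ω : Type u} [Field Ω] [CharZero Ω] {Γ : Type} {n q : ℕ}
  (X : SpecialFibre.{u, v} Ω Γ n q)

/-- The degree operator. -/
lemma exists_degree (a : ℕ) : ∃ h : Module.End Ω (X.H a), ∀ m x, x ∈ X.gr a m →
    h x = ((m - (n - a) : ℤ) : Ω) • x := by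
  classical
  have hI := X.isInternal a
  let : DirectSum.Decomposition (X.gr a) := hI.chooseDecomposition
  refine ⟨DirectSum.toModule Ω ℤ (X.H a) (fun m => ((m - (n - a) : ℤ) : Ω) • (X.gr a m).subtype) ∘ₗ
    (DirectSum.decomposeLinearEquiv (X.gr a)).toLinearMap, fun m x hx => ?_⟩
  have h1 : DirectSum.decompose (X.gr a) x = DirectSum.of (fun m => X.gr a m) m ⟨x, hx⟩ :=
    DirectSum.decompose_of_mem _ hx
  have h2 : (DirectSum.decomposeLinearEquiv (X.gr a)) x =
      DirectSum.lof Ω ℤ (fun m => X.gr a m) m ⟨x, hx⟩ := h1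
  rw [LinearMap.comp_apply, LinearEquiv.coe_coe, h2, DirectSum.toModule_lof]
  rfl

/-- **Existence of the dual Lefschetz operators of the strata.** -/
theorem exists_dual : ∃ lam, IsDual X lam := by
  have key : ∀ a : ℕ, ∃ l : Module.End Ω (X.H a),
      IsDualLefschetz (X.gr a) ((n : ℤ) - a) (X.lef a) l := by
    intro a
    obtain ⟨h, hgr⟩ := exists_degree X a
    have hD : IsDiag h := by
      rw [IsDiag, eq_top_iff, ← X.iSup_gr a]
      refine iSup_le fun m x hx => ?_
      exact Submodule.mem_iSup_of_mem (m - (n - a)) (Module.End.mem_eigenspace_iff.2 (hgr m x hx))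
    have hmem : ∀ (c : ℤ) z, h z = (c : Ω) • z → z ∈ X.gr a (c + (n - a)) := by
      intro c z hz
      have key : ∀ y : X.H a, wproj hD c y ∈ X.gr a (c + (n - a)) := by
        intro y
        refine X.gr_induction (P := fun y => wproj hD c y ∈ X.gr a (c + (n - a))) ?_ ?_ ?_ y
        · rw [map_zero]
          exact Submodule.zero_mem _
        · intro x y hx hy
          rw [map_add]
          exact Submodule.add_mem _ hx hy
        · intro m x hx
          by_cases hm : m - (n - a) = c
          · rw [wproj_same hD (by rw [hgr m x hx, hm])]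
            rwa [← hm, sub_add_cancel]
          · rw [wproj_ne hD (hgr m x hx) hm]
            exact Submodule.zero_mem _
      have := key z
      rwa [wproj_same hD hz] at this
    have he : h * X.lef a - X.lef a * h = (2 : Ω) • X.lef a := by
      ext1 x
      refine X.gr_induction (P := fun x => (h * X.lef a - X.lef a * h) x = ((2 : Ω) • X.lef a) x)
        (by rw [map_zero, map_zero]) (fun x y hx hy => by rw [map_add, map_add, hx, hy])
        (fun m x hx => ?_) x
      rw [LinearMap.sub_apply, Module.End.mul_apply, Module.End.mul_apply,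
        hgr _ _ (X.lef_gr a m x hx), hgr _ _ hx, map_smul, LinearMap.smul_apply, ← sub_smul]
      congr 1
      push_cast
      ring
    have H : HasHL h (X.lef a) := by
      constructor
      · intro k x hx h0
        apply X.lef_inj a k x _ h0
        have := hmem _ x hx
        rwa [show -(k : ℤ) + (n - a) = n - a - k by ring] at this
      · intro k y hy
        have h1 := hmem _ y hy
        obtain ⟨x, hx, hxy⟩ := X.lef_surj a k y (by
          rwa [show (k : ℤ) + (n - a) = n - a + k by ring] at h1)
        refine ⟨x, ?_, hxy⟩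
        rw [hgr _ _ hx]
        congr 2
        ring
    obtain ⟨f, T⟩ := exists_triple hD he H
    refine ⟨f, fun m x hx => ?_, fun m x hx => ?_⟩
    · have h1 := T.h_f (hgr m x hx)
      have h2 := hmem (m - 2 - (n - a)) (f x) (by
        rw [h1]
        congr 1
        push_cast
        ring)
      rwa [sub_add_cancel] at h2
    · have h1 := LinearMap.congr_fun T.ef x
      rw [LinearMap.sub_apply, Module.End.mul_apply, Module.End.mul_apply, hgr m x hx] at h1
      exact h1
  choose l hl using key
  exact ⟨l, hl⟩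

end Pool.Agent.H849.NC
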