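import Pool.Agent.H849.NC.Conv

/-!
# The strong form implies the Lefschetz properties of all the sections
-/

set_option autoImplicit false
set_option linter.unusedSectionVars false

open Module

namespace Pool.Agent.H849.NC

open Pool.Agent.H849.SF

variable {K : Type*} [Field K] {E : Type*} [AddCommGroup E] [Module K E]
  [FiniteDimensional K E]

/-- The Green operator. -/
lemma exists_green {D P : Module.End K E} (F : IsFitting D P) :
    ∃ G : Module.End K E, (∀ x, D (G x) = x - P x) ∧ (∀ x, P (G x) = 0) ∧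
      ∀ g : Module.End K E, Commute g D → Commute g G := by
  have hinj : Function.Injective (D + P : Module.End K E) := by
    rw [injective_iff_map_eq_zero]
    intro x hx
    have hx' : D x + P x = 0 := hx
    have h1 : P x = -D (P x) := by
      have := congrArg P hx'
      rw [map_add, F.apply_comm (Commute.refl D), F.idem, map_zero] at this
      exact eq_neg_of_add_eq_zero_right this
    have h2 : ∀ m : ℕ, P x = (-1 : K) ^ m • (D ^ m) (P x) := by
      intro m
      induction m with
      | zero => simp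
      | succ m ih =>
        rw [pow_succ' D, Module.End.mul_apply, ← pow_apply_eq (rfl : D * D = D * D) m (P x)]
        have h3 : D (P x) = -P x := by rw [h1, neg_neg, ← h1]
        rw [h3, map_neg, smul_neg, pow_succ, mul_neg, mul_one, neg_smul, neg_neg]
        exact ih
    obtain ⟨m, hm⟩ := F.nil
    have h3 : P x = 0 := by rw [h2 m, hm, smul_zero]
    refine F.inj h3 ?_
    rw [h3, add_zero] at hx'
    exact hx'
  let e := LinearEquiv.ofInjectiveEndo (D + P) hinj
  have he : ∀ x, e x = D x + P x := fun x => rfl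
  let M : Module.End K E := e.symm.toLinearMap
  have hM : ∀ x, D (M x) + P (M x) = x := fun x => by
    rw [← he]
    exact e.apply_symm_apply x
  have hcomm : ∀ g : Module.End K E, Commute g D → ∀ x, M (g x) = g (M x) := by
    intro g hg x
    apply hinj
    show D (M (g x)) + P (M (g x)) = D (g (M x)) + P (g (M x))
    rw [hM, ← apply_eq hg.eq, F.apply_comm hg, ← map_add, hM]
  have hMP : ∀ x, P (M x) = M (P x) := fun x =>
    (hcomm P (F.comm D (Commute.refl D)).symm x).symm
  refine ⟨M * (1 - P), fun x => ?_, fun x => ?_, fun g hg => ?_⟩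
  · have h1 : P (x - P x) = 0 := by rw [map_sub, F.idem, sub_self]
    have h2 := hM (x - P x)
    rw [hMP, h1, map_zero, add_zero] at h2
    exact h2
  · show P (M (x - P x)) = 0
    rw [hMP, map_sub, F.idem, sub_self, map_zero]
  · rw [commute_iff_eq]
    ext x
    show g (M (x - P x)) = M (g x - P (g x))
    rw [F.apply_comm hg, ← map_sub, hcomm g hg]

section Green

variable [CharZero K] {h₁ N N' h₂ L L' d P G : Module.End K E}

/-- The strong form holds, and `G` is the Green operator. -/
structure IsGreen (h₁ N N' h₂ L L' d P G : Module.End K E) : Prop where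
  W : IsWeightComplex h₁ N N' h₂ L L' d
  F : IsFitting (lap N' L' d) P
  strong : ∀ x, d (P x) = 0
  lapG : ∀ x, lap N' L' d (G x) = x - P x
  comm : ∀ g : Module.End K E, Commute g (lap N' L' d) → Commute g G

namespace IsGreen

variable (T : IsGreen h₁ N N' h₂ L L' d P G)
include T

lemma dP : d * P = 0 := by
  ext x
  exact T.strong x

lemma ΔG : lap N' L' d * G = 1 - P := by
  ext x
  exact T.lapG x

lemma dG : d * G = G * d := T.comm d T.W.d_lap

lemma N'P : N' * P = P * N' := T.F.comm N' T.W.N'_lap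

lemma u_lap : Commute (N' * d - d * N') (lap N' L' d) :=
  (T.W.N'_lap.mul_left T.W.d_lap).sub_left (T.W.d_lap.mul_left T.W.N'_lap)

lemma v_lap : Commute (L' * d - d * L') (lap N' L' d) :=
  (T.W.L'_lap.mul_left T.W.d_lap).sub_left (T.W.d_lap.mul_left T.W.L'_lap)

lemma uG : (N' * d - d * N') * G = G * (N' * d - d * N') := T.comm _ T.u_lap

lemma vG : (L' * d - d * L') * G = G * (L' * d - d * L') := T.comm _ T.v_lap

lemma codG : cod N' L' d * G = G * cod N' L' d := T.comm _ T.W.cod_lap

lemma uP : (N' * d - d * N') * P = 0 := by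
  have h1 := T.dP
  have h2 := T.N'P
  linear_combination (norm := noncomm_ring) N' * h1 - d * h2 - h1 * N'

lemma u_sq : (N' * d - d * N') * (N' * d - d * N') = 0 := by
  have h1 := T.W.du
  have h2 := T.W.uu'
  generalize hu : N' * d - d * N' = u at *
  have h5 : (2 : K) • (u * u) = 0 := by
    rw [two_smul]
    linear_combination (norm := noncomm_ring) N' * h1 - h1 * N' - hu * u - u * hu - d * h2 - h2 * d
  exact (smul_eq_zero.1 h5).resolve_left two_ne_zero

lemma Nu : N * (N' * d - d * N') - (N' * d - d * N') * N = d := by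
  have h1 := T.W.t₁.ef
  have h2 := T.W.Nd
  have h3 := T.W.h₁d
  linear_combination (norm := noncomm_ring) h1 * d - d * h1 + h3 - h2 * N' + N' * h2

/-- `A = G d u`. -/
def A (N' d G : Module.End K E) : Module.End K E := G * (d * (N' * d - d * N'))

lemma A_d : A N' d G * d = 0 := by
  have h1 := T.W.du
  have h2 := T.W.dd
  rw [A]
  generalize N' * d - d * N' = u at *
  linear_combination (norm := noncomm_ring) G * d * h1 - G * h2 * u

lemma A_A : A N' d G * A N' d G = 0 := by
  have h1 := T.A_d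
  have h2 := T.dG
  have e : A N' d G = d * (G * (N' * d - d * N')) := by
    rw [A, ← mul_assoc, ← h2, mul_assoc]
  nth_rewrite 2 [e]
  rw [← mul_assoc, h1, zero_mul]

lemma L_A : Commute L (A N' d G) :=
  (T.comm L T.W.L_lap).mul_right ((show Commute L d from T.W.Ld).mul_right T.W.Lu)

/-- `M = L + A`. -/
def M (N' L d G : Module.End K E) : Module.End K E := L + A N' d G

lemma M_d : Commute (M N' L d G) d := by
  have h1 := T.A_d
  have h2 := T.dG
  have h3 := T.W.dd
  have h4 : d * A N' d G = 0 := by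
    rw [A]
    linear_combination (norm := noncomm_ring) h2 * d * (N' * d - d * N') +
      G * h3 * (N' * d - d * N')
  rw [commute_iff_eq, M, add_mul, mul_add, h1, h4, T.W.Ld]

lemma M_N : Commute (M N' L d G) N := by
  have h1 := T.Nu
  have h2 := (T.comm N T.W.N_lap).eq
  have h3 := T.W.dd
  have h4 := T.W.Nd
  have h5 := T.W.NL
  rw [commute_iff_eq, M, A]
  generalize N' * d - d * N' = u at *
  linear_combination (norm := noncomm_ring) -h5 - h2 * d * u - G * h4 * u - G * d * h1 - G * h3

lemma M_N' : Commute (M N' L d G) N' := by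
  have h1 := T.W.uu'
  have h2 := (T.comm N' T.W.N'_lap).eq
  have h3 := T.u_sq
  have h5 := T.W.N'L
  rw [commute_iff_eq, M, A]
  generalize hu : N' * d - d * N' = u at *
  linear_combination (norm := noncomm_ring) -h5 - h2 * d * u - G * hu * u - G * d * h1 - G * h3

lemma M_h₁ : Commute (M N' L d G) h₁ := by
  rw [← T.W.t₁.ef]
  exact (T.M_N.mul_right T.M_N').sub_right (T.M_N'.mul_right T.M_N)

lemma M_u : Commute (M N' L d G) (N' * d - d * N') :=
  (T.M_N'.mul_right T.M_d).sub_right (T.M_d.mul_right T.M_N')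

lemma M_cod : Commute (M N' L d G) (cod N' L' d) := by
  have h1 := T.W.L_cod
  have h2 := T.codG
  have h3 := T.W.u_cod
  have h4 : G * lap N' L' d = 1 - P := by rw [← (T.comm _ (Commute.refl _)).eq, T.ΔG]
  have h5 : P * (N' * d - d * N') = 0 := by
    rw [← (T.F.comm _ T.u_lap).eq, T.uP]
  rw [commute_iff_eq, M, A]
  rw [lap] at h4
  generalize cod N' L' d = δ at *
  generalize N' * d - d * N' = u at *
  linear_combination (norm := noncomm_ring) h1 - h2 * d * u + G * d * h3 - h4 * u + h5

lemma M_v : Commute (M N' L d G) (L' * d - d * L') := by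
  rw [← T.W.N_cod]
  exact (T.M_N.mul_right T.M_cod).sub_right (T.M_cod.mul_right T.M_N)

lemma M_G : Commute (M N' L d G) G :=
  ((T.comm L T.W.L_lap)).add_left
    ((Commute.refl G).mul_left ((show Commute d G from T.dG).mul_left T.uG))

lemma d_u (x : E) : d ((N' * d - d * N') x) = -(N' * d - d * N') (d x) := by
  have := LinearMap.congr_fun T.W.du x
  rw [LinearMap.add_apply, Module.End.mul_apply, Module.End.mul_apply, LinearMap.zero_apply] at this
  exact eq_neg_of_add_eq_zero_left this

/-- The homotopy formula. -/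
lemma split (x : E) : x = P x + d (G (cod N' L' d x)) + G (cod N' L' d (d x)) := by
  have h1 := T.lapG x
  have h2 : lap N' L' d (G x) = d (G (cod N' L' d x)) + G (cod N' L' d (d x)) := by
    rw [lap, LinearMap.add_apply, Module.End.mul_apply, Module.End.mul_apply, apply_eq T.codG,
      apply_eq T.dG x, apply_eq T.codG]
  rw [add_assoc, ← h2, h1]
  abel

lemma du_N : Commute (d * (N' * d - d * N')) N := by
  have h1 := T.Nu
  have h2 := T.W.Nd
  have h3 := T.W.dd
  rw [commute_iff_eq]
  generalize N' * d - d * N' = u at *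
  linear_combination (norm := noncomm_ring) -h2 * u - d * h1 - h3

lemma du_N' : Commute (d * (N' * d - d * N')) N' := by
  have h1 := T.W.uu'
  have h3 := T.u_sq
  rw [commute_iff_eq]
  generalize hu : N' * d - d * N' = u at *
  linear_combination (norm := noncomm_ring) -hu * u - d * h1 - h3

end IsGreen

/-! ### Symbols -/

/-- `B` commutes with the operators. -/
structure Comm (N N' L' d G B : Module.End K E) : Prop where
  oN : Commute B N
  oN' : Commute B N'
  oD : Commute B d
  oC : Commute B (cod N' L' d)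
  oG : Commute B G

namespace Comm

variable {B C : Module.End K E}

lemma u (hB : Comm N N' L' d G B) : Commute B (N' * d - d * N') :=
  (hB.oN'.mul_right hB.oD).sub_right (hB.oD.mul_right hB.oN')

lemma A (hB : Comm N N' L' d G B) : Commute B (IsGreen.A N' d G) :=
  hB.oG.mul_right (hB.oD.mul_right hB.u)

lemma lap (hB : Comm N N' L' d G B) : Commute B (lap N' L' d) :=
  (hB.oD.mul_right hB.oC).add_right (hB.oC.mul_right hB.oD)

lemma add (hB : Comm N N' L' d G B) (hC : Comm N N' L' d G C) : Comm N N' L' d G (B + C) :=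
  ⟨hB.oN.add_left hC.oN, hB.oN'.add_left hC.oN', hB.oD.add_left hC.oD, hB.oC.add_left hC.oC,
    hB.oG.add_left hC.oG⟩

lemma mul (hB : Comm N N' L' d G B) (hC : Comm N N' L' d G C) : Comm N N' L' d G (B * C) :=
  ⟨hB.oN.mul_left hC.oN, hB.oN'.mul_left hC.oN', hB.oD.mul_left hC.oD, hB.oC.mul_left hC.oC,
    hB.oG.mul_left hC.oG⟩

lemma zero : Comm N N' L' d G (0 : Module.End K E) :=
  ⟨Commute.zero_left _, Commute.zero_left _, Commute.zero_left _, Commute.zero_left _,
    Commute.zero_left _⟩

lemma one : Comm N N' L' d G (1 : Module.End K E) :=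
  ⟨Commute.one_left _, Commute.one_left _, Commute.one_left _, Commute.one_left _,
    Commute.one_left _⟩

end Comm

/-- `Θ` is of the form `B - A C`, where `B` and `C` commute with the operators. -/
def IsSymbol (N N' L' d G Θ : Module.End K E) : Prop :=
  ∃ B C, Comm N N' L' d G B ∧ Comm N N' L' d G C ∧ Θ = B - IsGreen.A N' d G * C

namespace IsGreen

variable (T : IsGreen h₁ N N' h₂ L L' d P G) {Θ Θ' : Module.End K E}
include T

lemma symbol_L : IsSymbol N N' L' d G L :=
  ⟨M N' L d G, 1, ⟨T.M_N, T.M_N', T.M_d, T.M_cod, T.M_G⟩, Comm.one, by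
    rw [M, mul_one, add_sub_cancel_right]⟩

omit T in
lemma symbol_of_comm {B : Module.End K E} (hB : Comm N N' L' d G B) : IsSymbol N N' L' d G B :=
  ⟨B, 0, hB, Comm.zero, by rw [mul_zero, sub_zero]⟩

omit T in
lemma symbol_add (h : IsSymbol N N' L' d G Θ) (h' : IsSymbol N N' L' d G Θ') :
    IsSymbol N N' L' d G (Θ + Θ') := by
  obtain ⟨B, C, hB, hC, rfl⟩ := h
  obtain ⟨B', C', hB', hC', rfl⟩ := h'
  exact ⟨B + B', C + C', hB.add hB', hC.add hC', by rw [mul_add]; abel⟩

lemma symbol_mul (h : IsSymbol N N' L' d G Θ) (h' : IsSymbol N N' L' d G Θ') :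
    IsSymbol N N' L' d G (Θ * Θ') := by
  obtain ⟨B, C, hB, hC, rfl⟩ := h
  obtain ⟨B', C', hB', hC', rfl⟩ := h'
  refine ⟨B * B', C * B' + B * C', hB.mul hB', (hC.mul hB').add (hB.mul hC'), ?_⟩
  have h1 := T.A_A
  have h2 := hB.A.eq
  have h3 := hC.A.eq
  generalize IsGreen.A N' d G = A at *
  linear_combination (norm := noncomm_ring) A * h3 * C' - h2 * C' + h1 * C * C'

lemma symbol_pow (h : IsSymbol N N' L' d G Θ) (c : ℕ) : IsSymbol N N' L' d G (Θ ^ c) := by
  induction c with
  | zero => exact symbol_of_comm Comm.one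
  | succ c ih =>
    rw [pow_succ]
    exact T.symbol_mul ih h

omit T in
lemma symbol_sum (f : ℕ → Module.End K E) (h : ∀ i, IsSymbol N N' L' d G (f i)) (r : ℕ) :
    IsSymbol N N' L' d G (∑ i ∈ Finset.range r, f i) := by
  induction r with
  | zero =>
    rw [Finset.range_zero, Finset.sum_empty]
    exact symbol_of_comm Comm.zero
  | succ r ih =>
    rw [Finset.sum_range_succ]
    exact symbol_add ih (h r)

/-- **The strong form implies the injectivity of `N ^ k` for all the symbols.** -/
theorem inj_symbol (D₁ : IsDiag h₁) (hΘ : IsSymbol N N' L' d G Θ) (k : ℕ) (x y : E)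
    (hx₁ : h₁ x = (-(k : K)) • x) (hdx : Θ (d x) = 0) (hy : Θ ((N ^ k) x) = Θ (d y)) :
    ∃ z, Θ x = Θ (d z) := by
  obtain ⟨B, C, hB, hC, hΘe⟩ := hΘ
  have hAN : Commute (IsGreen.A N' d G) N := (T.comm N T.W.N_lap).symm.mul_left T.du_N
  have hAN' : Commute (IsGreen.A N' d G) N' := (T.comm N' T.W.N'_lap).symm.mul_left T.du_N'
  have hdA : d * IsGreen.A N' d G = 0 := by
    have h2 := T.dG
    have h3 := T.W.dd
    rw [IsGreen.A]
    linear_combination (norm := noncomm_ring) h2 * d * (N' * d - d * N') +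
      G * h3 * (N' * d - d * N')
  have hAd : Commute (IsGreen.A N' d G) d := by
    rw [commute_iff_eq, T.A_d, hdA]
  have hAl : Commute (IsGreen.A N' d G) (lap N' L' d) :=
    (T.comm _ (Commute.refl _)).symm.mul_left (T.W.d_lap.mul_left T.u_lap)
  have hΘN : Commute Θ N := by
    rw [hΘe]
    exact hB.oN.sub_left (hAN.mul_left hC.oN)
  have hΘN' : Commute Θ N' := by
    rw [hΘe]
    exact hB.oN'.sub_left (hAN'.mul_left hC.oN')
  have hΘh : Commute Θ h₁ := by
    rw [← T.W.t₁.ef]
    exact (hΘN.mul_right hΘN').sub_right (hΘN'.mul_right hΘN)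
  have hΘl : Commute Θ (lap N' L' d) := by
    rw [hΘe]
    exact hB.lap.sub_left (hAl.mul_left hC.lap)
  have hΘd : ∀ y, Θ (d y) = B (d y) := by
    intro y
    have h1 : IsGreen.A N' d G (C (d y)) = 0 := by
      rw [apply_eq hC.oD.eq]
      exact LinearMap.congr_fun T.A_d _
    rw [hΘe, LinearMap.sub_apply, Module.End.mul_apply, h1, sub_zero]
  have hPΘ : ∀ x, P (Θ x) = Θ (P x) := fun x => (apply_eq (T.F.comm Θ hΘl).eq x).symm
  have hPN : ∀ k x, P ((N ^ k) x) = (N ^ k) (P x) := fun k x =>
    (pow_apply_eq (T.F.comm N T.W.N_lap).eq k x).symm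
  have hPd : ∀ x, P (d x) = 0 := fun x => by
    rw [T.W.P_d T.F, T.strong]
  have hΘNk : ∀ x, Θ ((N ^ k) x) = (N ^ k) (Θ x) := fun x =>
    apply_eq (hΘN.pow_right k).eq x
  have hNd : ∀ x, (N ^ k) (d x) = d ((N ^ k) x) := fun x => pow_apply_eq T.W.Nd k x
  -- the null part
  have hP0 : Θ (P x) = 0 := by
    refine T.W.t₁.inj k ?_ ?_
    · rw [← apply_eq hΘh.eq, apply_eq (T.F.comm h₁ T.W.h₁_lap).eq, hx₁, map_smul, map_smul]
    · rw [← hΘNk, ← hPN, ← hPΘ, hy, hPΘ, hPd, map_zero]
  set sx := G (cod N' L' d x) with hsx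
  set x₁ := G (cod N' L' d (d x)) with hx₁'
  have hsplit := T.split x
  rw [← hsx, ← hx₁'] at hsplit
  set u := N' * d - d * N' with hu
  have hBx₁ : B x₁ = 0 := by
    rw [hx₁', apply_eq hB.oG.eq, apply_eq hB.oC.eq, ← hΘd, hdx, map_zero, map_zero]
  set w := d (u (C x₁)) with hw
  have hΘx₁ : Θ x₁ = -G w := by
    rw [hΘe, LinearMap.sub_apply, hBx₁, zero_sub]
    rfl
  have hNx₁ : Θ ((N ^ k) x₁) = Θ (d (y - (N ^ k) sx)) := by
    have e1 : x₁ = x - P x - d sx := by
      calc x₁ = (P x + d sx + x₁) - P x - d sx := by abel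
        _ = _ := by rw [← hsplit]
    rw [e1, map_sub (N ^ k), map_sub (N ^ k), map_sub Θ, map_sub Θ, hy,
      hΘNk (P x), hP0, map_zero, sub_zero, hNd, map_sub d, map_sub Θ]
  have hPw : P ((N ^ k) w) = 0 := by rw [hPN, hw, hPd, map_zero]
  obtain ⟨e, hNw⟩ : ∃ e, (N ^ k) w = B (d e) := by
    refine ⟨-lap N' L' d (y - (N ^ k) sx), ?_⟩
    rw [hΘNk, hΘx₁, map_neg, pow_apply_eq (T.comm N T.W.N_lap).eq, neg_eq_iff_eq_neg] at hNx₁
    have e2 := congrArg (lap N' L' d) hNx₁
    rw [T.lapG, hPw, sub_zero, map_neg, ← apply_eq hΘl.eq, ← apply_eq T.W.d_lap.eq, hΘd] at e2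
    rw [map_neg, map_neg, e2]
  set v := L' * d - d * L' with hv
  have hBv : Commute B v := by
    rw [hv, ← T.W.N_cod]
    exact (hB.oN.mul_right hB.oC).sub_right (hB.oC.mul_right hB.oN)
  have hDN : ∀ {B}, Comm N N' L' d G B → Commute (d * u * B) N := fun hB =>
    T.du_N.mul_left hB.oN
  have hDN' : ∀ {B}, Comm N N' L' d G B → Commute (d * u * B) N' := fun hB =>
    T.du_N'.mul_left hB.oN'
  have hDh : ∀ {B}, Comm N N' L' d G B → Commute (d * u * B) h₁ := fun hB => by
    rw [← T.W.t₁.ef]
    exact ((hDN hB).mul_right (hDN' hB)).sub_right ((hDN' hB).mul_right (hDN hB))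
  -- `N ^ k w` is in the image of `u`
  have hwB : (d * u * C) x₁ = w := rfl
  have hNB : (N ^ k) w = d (u (C ((N ^ k) x₁))) := by
    rw [← hwB, pow_apply_eq (hDN hC).symm.eq]
    rfl
  have huu : ∀ y, u (u y) = 0 := fun y => LinearMap.congr_fun T.u_sq y
  have hu0 : u ((N ^ k) w) = 0 := by
    rw [hNB, T.d_u, map_neg, huu, neg_zero]
  have hBe : (d * u * B) (-G (v e)) = (N ^ k) w := by
    have e3 : lap N' L' d (G ((N ^ k) w)) = (N ^ k) w := by
      rw [T.lapG, hPw, sub_zero]
    have e4 : lap N' L' d (G ((N ^ k) w)) = -(u (v (G ((N ^ k) w))) + v (u (G ((N ^ k) w)))) := by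
      have := LinearMap.congr_fun T.W.d_cod (G ((N ^ k) w))
      rw [LinearMap.add_apply, LinearMap.zero_apply] at this
      exact eq_neg_of_add_eq_zero_left this
    have e5 : v (d e) = -d (v e) := by
      have := LinearMap.congr_fun T.W.dv e
      rw [LinearMap.add_apply, Module.End.mul_apply, Module.End.mul_apply,
        LinearMap.zero_apply] at this
      exact eq_neg_of_add_eq_zero_right this
    have e6 : ∀ y, u (d y) = -d (u y) := fun y => by rw [T.d_u, neg_neg]
    rw [e4, apply_eq T.uG, hu0, map_zero, map_zero, add_zero] at e3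
    rw [← e3, hNw]
    calc d (u (B (-G (v e))))
        = -d (u (B (G (v e)))) := by rw [map_neg, map_neg, map_neg]
      _ = -B (d (u (G (v e)))) := by
        rw [← apply_eq hB.u.eq, ← apply_eq hB.oD.eq]
      _ = B (u (d (G (v e)))) := by rw [e6, map_neg]
      _ = u (B (G (d (v e)))) := by
        rw [apply_eq hB.u.eq, apply_eq T.dG]
      _ = -u (B (G (v (d e)))) := by
        rw [e5, map_neg, map_neg, map_neg, neg_neg]
      _ = -u (v (G (B (d e)))) := by
        rw [← apply_eq T.vG, apply_eq hBv.eq, apply_eq hB.oG.eq]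
  -- the weights
  have hx₁w : h₁ x₁ = (-(k : K)) • x₁ := by
    have e7 : h₁ * cod N' L' d - cod N' L' d * h₁ = -cod N' L' d := by
      have ha := T.W.N'_cod
      have hb' := T.W.N_cod
      have hδ : cod N' L' d = N' * (L' * d - d * L') - (L' * d - d * L') * N' := rfl
      rw [← T.W.t₁.ef]
      generalize cod N' L' d = δ at *
      generalize L' * d - d * L' = v' at *
      linear_combination (norm := noncomm_ring) N * ha + hb' * N' - N' * hb' - ha * N + hδ
    have e8 : h₁ (cod N' L' d (d x)) = cod N' L' d (d (h₁ x)) := by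
      have e9 := LinearMap.congr_fun e7 (d x)
      have e10 := LinearMap.congr_fun T.W.h₁d x
      simp only [LinearMap.sub_apply, Module.End.mul_apply, LinearMap.neg_apply] at e9 e10
      rw [sub_eq_iff_eq_add] at e9 e10
      rw [e9, e10, map_add]
      abel
    rw [hx₁', apply_eq (T.comm h₁ T.W.h₁_lap).eq, e8, hx₁, map_smul, map_smul, map_smul]
  have hww : h₁ w = (-(k : K)) • w := by
    rw [← hwB, ← apply_eq (hDh hC).eq, hx₁w, map_smul]
  have hNww : h₁ ((N ^ k) w) = ((k : ℤ) : K) • (N ^ k) w := by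
    rw [T.W.t₁.h_pow hww k]
    congr 1
    push_cast
    ring
  have e11 := wproj_comm D₁ (g := d * u * B) (hDh hB).symm (k : ℤ) (-G (v e))
  rw [hBe, wproj_same D₁ hNww] at e11
  obtain ⟨e', he'₁, he'⟩ := T.W.t₁.surj k (y := wproj D₁ (k : ℤ) (-G (v e))) (by
    rw [h_wproj]; simp)
  have e12 : w - (d * u * B) e' = 0 := by
    refine T.W.t₁.inj k ?_ ?_
    · rw [map_sub, hww, ← apply_eq (hDh hB).eq, he'₁, map_smul, smul_sub]
    · rw [map_sub, pow_apply_eq (hDN hB).symm.eq, he', e11, sub_self]
  have e13 : w = d (u (B e')) := sub_eq_zero.1 e12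
  refine ⟨sx - G (u e'), ?_⟩
  have e14 : Θ (d (G (u e'))) = G w := by
    rw [hΘd, apply_eq T.dG, apply_eq hB.oG.eq, apply_eq hB.oD.eq, apply_eq hB.u.eq, ← e13]
  rw [map_sub, map_sub, e14, hsplit, map_add, map_add, hP0, hΘx₁, zero_add, ← sub_eq_add_neg]

/-- **The strong form implies the injectivity of `N ^ k` for all the sections.** -/
theorem vInj (D₁ : IsDiag h₁) (c : ℕ) (s : ℤ) : VInj h₁ N h₂ L d c s :=
  fun k x y hx₁ _ hdx hy => T.inj_symbol D₁ (T.symbol_pow T.symbol_L c) k x y hx₁ hdx hy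

end IsGreen

end Green

end Pool.Agent.H849.NC
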