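import Pool.Agent.H849.SF.Defs

/-!
# The hard Lefschetz theorem on the `E_2` term
-/

set_option autoImplicit false

namespace Pool.Agent.H849.NC

open Module Pool.Agent.Y143 Pool.Agent.H849.SF

universe u v

/-- The hard Lefschetz theorem for the generic fibre, on the `E_2` term of the weight spectral
sequence: `L ^ s` induces isomorphisms from `E_2^(r, w)`, `r + w = n - s`, to `E_2^(r, w + 2 s)`. -/
def HardLefschetz {Ω : Type u} [Field Ω] {Γ : Type} (Y : StrataData.{u, v} Ω Γ) (n : ℕ) : Prop :=
  ∀ (r : ℤ) (s : ℕ), IsoOn (compMap Y fun a => Y.lef a ^ s) (Y.cocycles r (n - s - r))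
    (Y.coboundaries r (n - s - r)) (Y.cocycles r (n + s - r)) (Y.coboundaries r (n + s - r))

theorem HardLefschetz.iff {Ω : Type u} [Field Ω] {Γ : Type} {Y : StrataData.{u, v} Ω Γ} {n : ℕ} :
    HardLefschetz Y n ↔ Y.HasHardLefschetz n := by
  have h1 : ∀ s : ℕ, (compMap Y fun a => Y.lef a ^ s) = Y.lefC ^ s := by
    intro s
    induction s with
    | zero =>
      ext x
      rfl
    | succ s ih =>
      rw [pow_succ', ← ih]
      refine LinearMap.ext fun x => funext fun a => ?_
      show (Y.lef a ^ (s + 1)) (x a) = Y.lef a ((Y.lef a ^ s) (x a))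
      rw [pow_succ', Module.End.mul_apply]
  unfold HardLefschetz StrataData.HasHardLefschetz
  simp only [h1]

end Pool.Agent.H849.NC
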