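import Pool.Agent.H849.NC.Prod

/-!
# Lefschetz maps to the product with a variety of good reduction
-/

set_option autoImplicit false
set_option linter.unusedSectionVars false

namespace Pool.Agent.H849.NC

open Module TensorProduct Pool.Agent.Y143 Pool.Agent.H849.SF Pool.Agent.H849.SEC
open Pool.Agent.H849.LM Pool.Agent.H849.SG
open Pool.Agent.R942.WB Pool.Agent.R942.WM

universe u v

variable {Ω : Type u} [Field Ω] [CharZero Ω] {Γ Γ' Γ'' : Type} {n N m q q' q'' : ℕ}

/-- Homogeneous lifts. -/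
lemma exists_homog' {M V : Type*} [AddCommGroup M] [Module Ω M] [AddCommGroup V] [Module Ω V]
    {gr : ℤ → Submodule Ω M} {G : ℤ → Submodule Ω V} (hind : iSupIndep G) {φ : M →ₗ[Ω] V}
    (hφ : ∀ m x, x ∈ gr m → φ x ∈ G m) (k : ℤ) (x : M) (hxs : x ∈ ⨆ m, gr m) (hx : φ x ∈ G k) :
    ∃ y ∈ gr k, φ y = φ x := by
  classical
  obtain ⟨f, hf, hfz⟩ := (Submodule.mem_iSup_iff_exists_finsupp _ _).1 hxs
  refine ⟨f k, hf k, ?_⟩
  rw [← sub_eq_zero]
  have h2 : φ (f k) - φ x ∈ G k := Submodule.sub_mem _ (hφ k _ (hf k)) hx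
  have h3 : φ (f k) - φ x = -∑ j ∈ f.support.erase k, φ (f j) := by
    by_cases hk : k ∈ f.support
    · have h4 := Finset.add_sum_erase f.support (fun j => φ (f j)) hk
      rw [← hfz, Finsupp.sum, map_sum, ← h4]
      abel
    · rw [Finset.erase_eq_of_notMem hk, ← hfz, Finsupp.sum, map_sum,
        Finsupp.notMem_support_iff.1 hk, map_zero, zero_sub]
  have h4 : φ (f k) - φ x ∈ ⨆ j, ⨆ (_ : j ≠ k), G j := by
    rw [h3]
    apply Submodule.neg_mem
    apply Submodule.sum_mem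
    intro j hj
    have hjk := Finset.ne_of_mem_erase hj
    exact Submodule.mem_iSup_of_mem j (Submodule.mem_iSup_of_mem hjk (hφ j _ (hf j)))
  exact (Submodule.disjoint_def.1 (hind k)) _ h2 h4

section Fam

variable (Y : SpecialFibre.{u, v} Ω Γ' N q')

lemma cut_mem_iSup (y : Total Y.toStrataData) (r : ℤ) : val Y y r ∈ ⨆ w, Y.E₁ r w := by
  refine tot_induction Y (p := fun y => ∀ r, val Y y r ∈ ⨆ w, Y.E₁ r w)
    (fun r => Submodule.zero_mem _) (fun x y hx hy r => Submodule.add_mem _ (hx r) (hy r))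
    (fun s w x hx r => ?_) y r
  by_cases hr : r = s
  · subst hr
    rw [sgl_val Y hx]
    exact Submodule.mem_iSup_of_mem w hx
  · rw [sgl_ne Y hr]
    exact Submodule.zero_mem _

lemma iSupIndep_E₁ (r : ℤ) : iSupIndep (Y.E₁ r) := by
  intro w
  rw [Submodule.disjoint_def]
  intro x hx hx'
  funext a
  have h1 := (hx a).1
  have h2 : x a ∈ ⨆ j, ⨆ (_ : j ≠ w + r - a), Y.gr a j := by
    have h3 : (⨆ w', ⨆ (_ : w' ≠ w), Y.E₁ r w') ≤
        (⨆ j, ⨆ (_ : j ≠ w + r - (a : ℤ)), Y.gr a j).comap (LinearMap.proj a) := by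
      refine iSup₂_le fun w' hw' z hz => ?_
      rw [Submodule.mem_comap]
      exact Submodule.mem_iSup_of_mem (w' + r - a)
        (Submodule.mem_iSup_of_mem (by omega) (hz a).1)
    exact h3 hx'
  exact (Submodule.disjoint_def.1 (iSupIndep_gr Y a (w + r - a))) _ h1 h2

lemma totD_sgl' {r : ℤ} {x : Y.C} (hcx : Y.cut r x = x) :
    totD Y.toStrataData (sgl Y r x) = sgl Y (r + 1) (Y.diff r x) := by
  apply val_inj Y
  funext s
  rw [totD_apply]
  by_cases hs : s = r + 1
  · subst hs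
    rw [show r + 1 - 1 = r by ring, sgl_same, sgl_same, hcx]
    funext a
    by_cases h : InColumn (r + 1) a
    · rw [Y.cut_of h]
    · rw [Y.cut_of_not h, Y.diff_apply, Y.cut_of_not h]
  · rw [sgl_ne Y hs, sgl_ne Y (by omega), map_zero]

lemma cut_diff_self (r : ℤ) (x : Y.C) : Y.cut (r + 1) (Y.diff r x) = Y.diff r x := by
  rw [Y.diff_apply, cut_cut]

end Fam

section Class

variable {X : SpecialFibre.{u, v} Ω Γ n q} {Y : SpecialFibre.{u, v} Ω Γ' N q'}
  (P : Product X.toStrataData Y.toStrataData)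

/-- The class on a stratum. -/
noncomputable def symH (M : ℕ → Module.End Ω P.U) (r : ℕ) (a : ℕ) : Module.End Ω (Y.H a) :=
  ∑ i ∈ Finset.range r, tp P (fun a => X.lef a ^ i) (M i) a

lemma symH_κ (M : ℕ → Module.End Ω P.U) (r : ℕ) (a : ℕ) (y : X.H a ⊗[Ω] P.U) :
    symH P M r a (P.κ a y) = P.κ a (polyOp (X.lef a) M r y) := by
  simp only [symH, polyOp, tp, LinearMap.sum_apply, LinearMap.comp_apply, LinearEquiv.coe_coe,
    LinearEquiv.symm_apply_apply, map_sum]

lemma sl_symH (φ : P.U →ₗ[Ω] Ω) (M : ℕ → Module.End Ω P.U) (r : ℕ) (a : ℕ) (y : Y.H a) :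
    sl P φ a (symH P M r a y) =
      ∑ i ∈ Finset.range r, (X.lef a ^ i) (sl P (φ ∘ₗ M i) a y) := by
  simp only [symH, LinearMap.sum_apply, map_sum, sl_tp]

lemma val_sym (M : ℕ → Module.End Ω P.U) (r : ℕ) (y : Total Y.toStrataData) (s : ℤ) (a : ℕ) :
    val Y (sym P M r y) s a = symH P M r a (val Y y s a) := by
  rw [← sub_eq_zero]
  refine sl_zero P fun φ => ?_
  rw [map_sub, sl_symH, sub_eq_zero, ← slC_apply, ← val_slTot]
  have h1 : ∀ (i : ℕ) (z : Total Y.toStrataData), slTot P φ ((tl P X.lef ^ i) z) =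
      (totOp X.toStrataData X.lef ^ i) (slTot P φ z) := by
    intro i
    induction i with
    | zero => intro z; rfl
    | succ i ih =>
      intro z
      rw [pow_succ', Module.End.mul_apply, slTot_tl, ih, pow_succ', Module.End.mul_apply]
  have h2 : ∀ (i : ℕ) (z : Total X.toStrataData), val X ((totOp X.toStrataData X.lef ^ i) z) s a =
      (X.lef a ^ i) (val X z s a) := by
    intro i
    induction i with
    | zero => intro z; rfl
    | succ i ih =>
      intro z
      rw [pow_succ', Module.End.mul_apply, totOp_apply, ih, pow_succ', Module.End.mul_apply]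
  rw [sym, LinearMap.sum_apply, map_sum, map_sum, Finset.sum_apply, Finset.sum_apply]
  refine Finset.sum_congr rfl fun i _ => ?_
  rw [Module.End.mul_apply, h1, h2, slTot_tr, val_slTot, slC_apply]

variable {Z : SemistableModel.{u, v} Ω Γ'' m q''}
  {f : PullBacks Y.toStrataData Z.toStrataData} (hf : IsLefschetzMap m f)
  {M : ℕ → Module.End Ω P.U} {r : ℕ} (hM : HasPolyClass P f M r)

include hf hM

lemma pull_iff (a : ℕ) (y : Y.H a) : f a y = 0 ↔ symH P M r a y = 0 := by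
  choose T hT using fun a => exists_op (Y.pair a) (Z.pair a) (Y.pair_nondeg' a) (f a)
  have h1 : T a y = symH P M r a y := by
    obtain ⟨z, rfl⟩ := (P.κ a).surjective y
    rw [symH_κ, ← sub_eq_zero]
    apply Y.pair_nondeg'
    intro x
    have h1 : Z.pair a (f a x) (f a (P.κ a z)) = Y.pair a x (P.κ a (polyOp (X.lef a) M r z)) :=
      hM a x z
    rw [map_sub, ← hT, h1, sub_self]
  rw [← h1]
  exact pull_T hf T hT a y

lemma sym_eq_iff {s : ℤ} {x y : Y.C} (hx : Y.cut s x = x) (hy : Y.cut s y = y) :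
    sym P M r (sgl Y s x) = sym P M r (sgl Y s y) ↔
      fC (Z := Z.toSpecialFibre) f x = fC (Z := Z.toSpecialFibre) f y := by
  have h0 : ∀ a, symH P M r a (x a) = symH P M r a (y a) ↔ f a (x a) = f a (y a) := by
    intro a
    rw [← sub_eq_zero, ← map_sub, ← pull_iff P hf hM, map_sub, sub_eq_zero]
  constructor
  · intro h
    funext a
    have h1 : val Y (sym P M r (sgl Y s x)) s a = val Y (sym P M r (sgl Y s y)) s a := by rw [h]
    rw [val_sym, val_sym, sgl_same, sgl_same, hx, hy] at h1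
    exact (h0 a).1 h1
  · intro h
    refine ext_tot Y fun s' a => ?_
    rw [val_sym, val_sym]
    by_cases hs : s' = s
    · subst hs
      rw [sgl_same, sgl_same, hx, hy]
      exact (h0 a).2 (congrFun h a)
    · rw [sgl_ne Y hs, sgl_ne Y hs]

end Class

section Main

variable {X : SpecialFibre.{u, v} Ω Γ n q} {Y : SpecialFibre.{u, v} Ω Γ' N q'}
  (P : Product X.toStrataData Y.toStrataData) {lam : ∀ a, Module.End Ω (X.H a)}
  (hl : IsDual X lam) (hs : StrongForm X.toStrataData lam)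
  {Z : SemistableModel.{u, v} Ω Γ'' m q''}
  {f : PullBacks Y.toStrataData Z.toStrataData} (hf : IsLefschetzMap m f)
  {M : ℕ → Module.End Ω P.U} {r : ℕ} (hM : HasPolyClass P f M r)

include hl hs hf hM

/-- The injectivity for the quotient complex. -/
theorem nInj_prod (hdK : ∀ r, LinearMap.ker (fC (Z := Z.toSpecialFibre) f) ≤
      (LinearMap.ker (fC (Z := Z.toSpecialFibre) f)).comap (Y.diff r)) (i : ℕ) (l : ℤ) :
    NInj (dK Y (LinearMap.ker (fC (Z := Z.toSpecialFibre) f)) hdK)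
      (GK Y m (LinearMap.ker (fC (Z := Z.toSpecialFibre) f))) i l := by
  have := finTotal_aux Y
  set K := LinearMap.ker (fC (Z := Z.toSpecialFibre) f) with hK
  have hmk : ∀ x y : Y.C, K.mkQ x = K.mkQ y ↔
      fC (Z := Z.toSpecialFibre) f x = fC (Z := Z.toSpecialFibre) f y := by
    intro x y
    rw [← sub_eq_zero, ← map_sub, Submodule.mkQ_apply, Submodule.Quotient.mk_eq_zero, hK,
      LinearMap.mem_ker, map_sub, sub_eq_zero]
  rintro k ⟨⟨⟨x, hx, rfl⟩, hx0⟩, ⟨_, ⟨y, hy, rfl⟩, hyx⟩⟩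
  have hx0' : fC (Z := Z.toSpecialFibre) f (Y.diff (-i) x) = 0 := by
    have h1 : K.mkQ (Y.diff (-i) x) = K.mkQ 0 := by
      rw [map_zero]
      exact hx0
    rw [(hmk _ _).1 h1, map_zero]
  have hyx' : fC (Z := Z.toSpecialFibre) f (Y.diff (i - 1) y) =
      fC (Z := Z.toSpecialFibre) f x := (hmk _ _).1 hyx
  obtain ⟨Q, G, T⟩ := exists_isGreen P hl hs
  have hΘ := symbol_sym P T M r
  have hcx : Y.cut (-i) x = x := cut_E₁ Y hx
  have hcx' : Y.cut i x = x := by
    rw [← Y.cut_neg (i : ℤ), hcx]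
  have hcy : Y.cut (i - 1) y = y := cut_E₁ Y hy
  have e1 := totN_pow_sgl Y hx le_rfl
  rw [show -(i : ℤ) + 2 * i = i by ring] at e1
  have e2 := totD_sgl' Y hcy
  rw [sub_add_cancel] at e2
  have hcdy := cut_diff_self Y ((i : ℤ) - 1) y
  rw [sub_add_cancel] at hcdy
  have h0 : sym P M r (sgl Y (-i + 1) 0) = 0 := by rw [sgl_zero, map_zero]
  obtain ⟨z, hz⟩ := T.inj_symbol (diag₁ Y) hΘ i (sgl Y (-i) x) (sgl Y (i - 1) y)
    (by rw [H₁_sgl]; simp) (by
      rw [totD_sgl' Y hcx, ← h0, sym_eq_iff P hf hM (cut_diff_self Y _ _) (map_zero _), hx0',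
        map_zero]) (by
      rw [e1, e2, sym_eq_iff P hf hM hcx' hcdy, hyx'])
  -- the component of `z` in the column `-i - 1`
  have hsN : Commute (totN Y.toStrataData) (sym P M r) := by
    refine Commute.sum_right _ _ _ fun j _ => ?_
    exact (Commute.pow_right (totN_op Y _) _).mul_right (totN_op Y _)
  have hsN' : Commute (totN' Y.toStrataData) (sym P M r) := by
    refine Commute.sum_right _ _ _ fun j _ => ?_
    exact (Commute.pow_right (totN'_op Y _) _).mul_right (totN'_op Y _)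
  have hsh : Commute (H₁ Y) (sym P M r) := by
    rw [← (triple₁ Y).ef]
    exact (hsN.mul_left hsN').sub_left (hsN'.mul_left hsN)
  have W := weightComplex_prod P hl
  have hcd : wproj (diag₁ Y) (-i) (totD Y.toStrataData z) =
      totD Y.toStrataData (wproj (diag₁ Y) (-i - 1) z) := by
    have := wproj_shift (diag₁ Y) (g := totD Y.toStrataData) 1 (by rw [W.h₁d]; simp) (-i - 1) z
    rwa [sub_add_cancel] at this
  have hz' := congrArg (wproj (diag₁ Y) (-i)) hz
  rw [wproj_comm (diag₁ Y) hsh, wproj_comm (diag₁ Y) hsh, hcd,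
    wproj_same (diag₁ Y) (H₁_sgl Y (-i) x)] at hz'
  have e3 := eq_sgl Y (h_wproj (diag₁ Y) (-i - 1) z)
  set z₀ := val Y (wproj (diag₁ Y) (-i - 1) z) (-i - 1) with hz₀
  have hcz : Y.cut (-i - 1) z₀ = z₀ := cut_tot Y _ _
  have hcdz := cut_diff_self Y (-(i : ℤ) - 1) z₀
  rw [sub_add_cancel] at hcdz
  rw [e3, totD_sgl' Y hcz, sub_add_cancel, sym_eq_iff P hf hM hcx hcdz] at hz'
  -- the homogeneous component of `z₀`
  have hdeg : ∀ w x, x ∈ Y.E₁ (-i - 1) w →
      ((fC (Z := Z.toSpecialFibre) f) ∘ₗ Y.diff (-i - 1)) x ∈ Z.E₁ (-i) w := by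
    intro w x hx
    have := fC_mem (Z := Z.toSpecialFibre) hf (Y.diff_mem hx)
    rwa [sub_add_cancel] at this
  obtain ⟨z₁, hz₁, hz₂⟩ := exists_homog' (iSupIndep_E₁ Z.toSpecialFibre (-i)) hdeg
    ((m : ℤ) + l - -i) z₀ (cut_mem_iSup Y _ _) (by
      rw [LinearMap.comp_apply, ← hz']
      exact fC_mem (Z := Z.toSpecialFibre) hf hx)
  refine ⟨K.mkQ z₁, ⟨z₁, ?_, rfl⟩, ?_⟩
  · exact Y.mem_E₁_cast rfl (by ring) hz₁
  · show K.mkQ (Y.diff (-i - 1) z₁) = K.mkQ x
    rw [hmk, hz']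
    exact hz₂

/-- **The main theorem for Lefschetz maps of polynomial class.** -/
theorem pure_of_poly [IsAlgClosed Ω] (hq : 1 < q'') : AllPure Z := by
  intro j
  refine (pure_iff_E₂ Z hq j).2 fun k hk => ?_
  have hd' := ker_le (Z := Z.toSpecialFibre) hf
  have hI : ∀ l, NInj Z.diff Z.tot k l := fun l =>
    ((retract (Z := Z.toSpecialFibre) hf _ rfl hd').nInj_iff k l).2
      (nInj_prod P hl hs hf hM hd' k l)
  exact ⟨hI _, nSurj_of_nInj Z.toSpecialFibre k _ (hI _)⟩

end Main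

end Pool.Agent.H849.NC
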