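import Pool.Agent.H849.NC.Virt
import Pool.Agent.H849.SF.Main
import Pool.Agent.H849.SG.Main

/-!
# The strong form and the middle cohomology of the sections
-/

set_option autoImplicit false
set_option linter.unusedSectionVars false

namespace Pool.Agent.H849.NC

open Module Submodule Pool.Agent.Y143 Pool.Agent.H849.SF Pool.Agent.H849.SEC
open Pool.Agent.R942.WB Pool.Agent.R942.WM

universe u v

variable {Ω : Type u} [Field Ω] [CharZero Ω] {Γ : Type} {n q : ℕ}

section Top

variable (X : SpecialFibre.{u, v} Ω Γ n q)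

lemma lef_top {r w : ℤ} {x : X.C} (hx : x ∈ X.E₁ r w) : (X.lefC ^ n) (X.diff r x) = 0 := by
  have h1 := SF.lefC_pow_mem X (X.diff_mem hx) n
  funext a
  by_cases h0 : (n : ℤ) - a < 0
  · exact X.eq_zero_of_lt (by omega) _
  have h2 := (h1 a).1
  by_cases h3 : 2 * ((n : ℤ) - a) < w + 2 * n + (r + 1) - a
  · rw [X.gr_eq_bot a _ (Or.inr h3), Submodule.mem_bot] at h2
    exact h2
  · -- then `w + r + 1 + a ≤ 0`
    have h4 : X.diff r x = 0 := by
      have h5 := X.diff_mem hx
      funext b
      by_cases h6 : w + (r + 1) - b < 0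
      · have := (h5 b).1
        rw [X.gr_eq_bot b _ (Or.inl h6), Submodule.mem_bot] at this
        exact this
      · have hb : b = 0 ∧ w + (r + 1) = 0 ∧ a = 0 := by omega
        obtain ⟨rfl, hw, -⟩ := hb
        by_cases h7 : InColumn (r + 1) 0
        · have hr : r = -1 := by
            have := h7.1
            rw [abs_le] at this
            push_cast at this
            omega
          subst hr
          obtain rfl : w = 0 := by omega
          have h8 : x = 0 := by
            funext b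
            have := (hx b).1
            rw [X.gr_eq_bot b _ (Or.inl (by omega)), Submodule.mem_bot] at this
            exact this
          rw [h8, map_zero]
        · exact (h5 0).2 h7
    rw [h4, map_zero]

/-- `L ^ n d = 0`. -/
lemma totL_top (x : Total X.toStrataData) :
    (totOp X.toStrataData X.lef ^ n) (totD X.toStrataData x) = 0 := by
  refine tot_induction X (p := fun x => (totOp X.toStrataData X.lef ^ n) (totD X.toStrataData x) = 0)
    (by rw [map_zero, map_zero]) (fun x y hx hy => by rw [map_add, map_add, hx, hy, add_zero])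
    (fun r w x hx => ?_) x
  rw [totD_sgl X hx, totL_pow_sgl, lef_top X hx, sgl_zero]

/-- Injectivity in degree `-1` gives injectivity in degree `1`, by the hard Lefschetz theorem. -/
lemma nInj_flip (hX : X.toStrataData.HasHardLefschetz n) {k : ℤ} (hk : 1 ≤ k)
    (h : NInj X.diff X.tot k (-1)) : NInj X.diff X.tot k 1 := by
  have hz : ∀ r s, Zc X.diff X.tot r s = X.cocycles r (n + s - r) := X.zc_eq
  have hb : ∀ r s, Bd X.diff X.tot r s = X.coboundaries r (n + s - r) := X.bd_eq
  have hz1 : ∀ r, X.cocycles r (n + ((1 : ℕ) : ℤ) - r) = Zc X.diff X.tot r 1 := fun r => by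
    rw [hz]; push_cast; rfl
  have hb1 : ∀ r, X.coboundaries r (n + ((1 : ℕ) : ℤ) - r) = Bd X.diff X.tot r 1 := fun r => by
    rw [hb]; push_cast; rfl
  have hz2 : ∀ r, X.cocycles r (n - ((1 : ℕ) : ℤ) - r) = Zc X.diff X.tot r (-1) := fun r => by
    rw [hz]; push_cast; rfl
  have hb2 : ∀ r, X.coboundaries r (n - ((1 : ℕ) : ℤ) - r) = Bd X.diff X.tot r (-1) := fun r => by
    rw [hb]; push_cast; rfl
  obtain ⟨-, hS⟩ := hX (-k) 1
  obtain ⟨hI, -⟩ := hX k 1
  rw [hz1, hb1, hz2, pow_one] at hS
  rw [hz2, hb1, hb2, pow_one] at hI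
  rintro x ⟨hx, hxb⟩
  obtain ⟨y, hy, hyx⟩ := hS x hx
  have h1 : X.lefC y ∈ Bd X.diff X.tot k 1 := by
    have h2 := Submodule.sub_mem _ hxb (bd_neg_le' X hk 1 hyx)
    rwa [sub_sub_cancel] at h2
  have h3 := hI y (zc_neg_le' X hk _ hy) h1
  obtain ⟨z, hz, hzy⟩ := h ⟨hy, h3⟩
  have h4 : X.lefC y ∈ Bd X.diff X.tot (-k) 1 := by
    refine ⟨X.lefC z, ?_, ?_⟩
    · exact X.mem_E₁_cast rfl (by ring) (X.lefC_mem hz)
    · rw [X.diff_lefC, hzy]
  have h5 := Submodule.add_mem _ hyx h4
  rwa [sub_add_cancel] at h5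

end Top

section Step

variable {X : SpecialFibre.{u, v} Ω Γ n q} {lam : ∀ a, Module.End Ω (X.H a)} (hl : IsDual X lam)

include hl in
/-- Injectivity in the middle degree of the section of codimension `c + 1` gives injectivity in degree
`-1` for the section of codimension `c`. -/
lemma vi_up {c : ℕ} (h : VI X lam (c + 1) (-((c + 1 : ℕ) : ℤ))) :
    VI X lam c (-((c : ℤ) + 1)) := by
  intro k x y hx₁ hx₂ hdx hy
  have W := weightComplex X hl
  have hx₂' : H₂ X lam x = ((-((c + 1 : ℕ) : ℤ) : ℤ) : Ω) • x := by rw [hx₂]; push_cast; rfl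
  obtain ⟨z, hz⟩ := h k x y hx₁ hx₂' (by rw [pow_succ', Module.End.mul_apply, hdx, map_zero])
    (by rw [pow_succ', Module.End.mul_apply, Module.End.mul_apply, hy])
  have hx₁' : H₁ X x = ((-(k : ℤ) : ℤ) : Ω) • x := by rw [hx₁]; push_cast; rfl
  obtain ⟨z', -, hz₂, hz'⟩ := hom_pow W (diag₁ X) (diag₂ X hl) hx₁' hx₂' hz
  refine ⟨z', ?_⟩
  have h1 : x - totD X.toStrataData z' = 0 := by
    have := finTotal_aux X
    refine W.t₂.inj (c + 1) ?_ ?_
    · have h2 := LinearMap.congr_fun W.h₂d z'
      rw [LinearMap.sub_apply, Module.End.mul_apply, Module.End.mul_apply, hz₂, map_smul,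
        sub_eq_iff_eq_add] at h2
      rw [map_sub, hx₂', h2, smul_sub]
      push_cast
      module
    · rw [map_sub, hz', sub_self]
  rw [sub_eq_zero.1 h1]

end Step

/-- Surjectivity in degree `-1` for the section of codimension `c`. -/
lemma vs_of_vi {m c : ℕ} {X : SpecialFibre.{u, v} Ω Γ (m + c) q}
    {lam : ∀ a, Module.End Ω (X.H a)} (hl : IsDual X lam)
    (hX : X.toStrataData.HasHardLefschetz (m + c))
    (h : VI X lam (c + 1) (-((c + 1 : ℕ) : ℤ))) : VS X lam c (-((c : ℤ) + 1)) := by
  apply vSurj_of_nSurj X hl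
  intro k hk
  rw [show -((c : ℤ) + 1) + c = -1 by ring]
  apply SG.nSurj_of_nInj
  rw [neg_neg]
  apply nInj_flip (virt X) (virt_hardLefschetz X hX) (by exact_mod_cast hk)
  have h1 := nInj_of_vInj X hl (vi_up hl h) k
  rwa [show -((c : ℤ) + 1) + c = -1 by ring] at h1

/-- **Injectivity in the middle degrees of all the sections implies the strong form.** -/
theorem strong_of_vi {X : SpecialFibre.{u, v} Ω Γ n q} {lam : ∀ a, Module.End Ω (X.H a)}
    (hl : IsDual X lam) (hX : X.toStrataData.HasHardLefschetz n)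
    (h : ∀ c : ℕ, c ≤ n → VI X lam c (-(c : ℤ))) : StrongForm X.toStrataData lam := by
  obtain ⟨P, F⟩ := exists_fitting (laplace X.toStrataData lam)
  have W := weightComplex X hl
  rw [strong_iff X F]
  have T : IsNull (H₁ X) (totN X.toStrataData) (totN' X.toStrataData)
      (H₂ X lam) (totOp X.toStrataData X.lef) (totOp X.toStrataData lam)
      (totD X.toStrataData) P :=
    ⟨W, F.idem, F.comm _ W.N_lap, F.comm _ W.N'_lap, F.comm _ W.L_lap, F.comm _ W.L'_lap,
      F.comm _ W.d_lap, F.nil, diag₁ X, diag₂ X hl⟩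
  intro x
  refine T.strong (n := n) (fun a s x _ => totL_top X x) ?_ (fun c hc => h c hc.le)
    ((lefschetz_L_iff X hl).2 hX) x
  intro c hc
  obtain ⟨m, rfl⟩ := Nat.exists_eq_add_of_le' hc.le
  exact vs_of_vi hl hX (h (c + 1) (by omega))

/-- **The strong form implies the Lefschetz properties of all the sections.** -/
theorem nInj_of_strong {m c : ℕ} {X : SpecialFibre.{u, v} Ω Γ (m + c) q}
    {lam : ∀ a, Module.End Ω (X.H a)} (hl : IsDual X lam) (hs : StrongForm X.toStrataData lam)
    (k : ℕ) (j : ℤ) : NInj (virt X).diff (virt X).tot k j := by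
  obtain ⟨P, F⟩ := exists_fitting (laplace X.toStrataData lam)
  rw [strong_iff X F] at hs
  obtain ⟨G, h1, -, h2⟩ := exists_green F
  have T : IsGreen (H₁ X) (totN X.toStrataData) (totN' X.toStrataData)
      (H₂ X lam) (totOp X.toStrataData X.lef) (totOp X.toStrataData lam)
      (totD X.toStrataData) P G := ⟨weightComplex X hl, F, hs, h1, h2⟩
  have h3 := nInj_of_vInj X hl (T.vInj (diag₁ X) c (j - c)) k
  rwa [sub_add_cancel] at h3

/-- **The strong form implies the conjecture for all the sections.** -/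
theorem pure_of_strong_section [IsAlgClosed Ω] (hq : 1 < q) {m c : ℕ}
    {X : SpecialFibre.{u, v} Ω Γ (m + c) q} {lam : ∀ a, Module.End Ω (X.H a)}
    (hl : IsDual X lam) (hs : StrongForm X.toStrataData lam) {Z : SemistableModel.{u, v} Ω Γ m q}
    (hZ : HasAmpleMap m c X.toStrataData Z.toStrataData) : AllPure Z := by
  intro j
  refine (pure_iff_virt hZ hq j).2 fun k _ => ⟨nInj_of_strong hl hs k _, ?_⟩
  apply SG.nSurj_of_nInj
  exact nInj_of_strong hl hs k _

/-- The section of dimension zero. -/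
lemma vi_top {X : SpecialFibre.{u, v} Ω Γ n q} {lam : ∀ a, Module.End Ω (X.H a)}
    (hl : IsDual X lam) : VI X lam n (-(n : ℤ)) := by
  intro k x y hx₁ _ _ hy
  have := finTotal_aux X
  have W := weightComplex X hl
  refine ⟨0, ?_⟩
  rw [map_zero, map_zero]
  refine W.t₁.inj k ?_ ?_
  · rw [← pow_apply_eq (show totOp X.toStrataData X.lef * H₁ X = H₁ X * totOp X.toStrataData X.lef
      from W.h₁L.symm), hx₁, map_smul]
  · have h1 : (totN X.toStrataData ^ k) ((totOp X.toStrataData X.lef ^ n) x) =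
        (totOp X.toStrataData X.lef ^ n) ((totN X.toStrataData ^ k) x) :=
      apply_eq (((show Commute (totN X.toStrataData) (totOp X.toStrataData X.lef) from
        W.NL).pow_left k).pow_right n).eq x
    rw [h1, hy, totL_top]

/-- **The middle cohomology of the sections decides.** -/
theorem strong_of_sections [IsAlgClosed Ω] (hq : 1 < q) {X : SpecialFibre.{u, v} Ω Γ n q}
    {lam : ∀ a, Module.End Ω (X.H a)} (hl : IsDual X lam)
    (hX : X.toStrataData.HasHardLefschetz n)
    (Z : ∀ m : ℕ, SemistableModel.{u, v} Ω Γ m q)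
    (hZ : ∀ m c : ℕ, 1 ≤ m → m + c = n → HasAmpleMap m c X.toStrataData (Z m).toStrataData)
    (hp : ∀ m : ℕ, 1 ≤ m → m ≤ n → IsPureIn (Z m) m) : StrongForm X.toStrataData lam := by
  apply strong_of_vi hl hX
  intro c hc
  rcases Nat.eq_or_lt_of_le hc with rfl | hc'
  · exact vi_top hl
  obtain ⟨m, rfl⟩ := Nat.exists_eq_add_of_le' hc
  apply vInj_of_nInj X hl
  intro k hk
  rw [neg_add_cancel]
  have := ((pure_iff_virt (hZ m c (by omega) rfl) hq m).1 (hp m (by omega) (by omega)) k hk).1
  rwa [sub_self] at this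

end Pool.Agent.H849.NC
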