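import Pool.Agent.H849.NC.Main
import Pool.Agent.H849.NC.Defs

/-!
# The total complex of a product with a variety of good reduction
-/

set_option autoImplicit false
set_option linter.unusedSectionVars false

namespace Pool.Agent.H849.NC

open Module TensorProduct Pool.Agent.Y143 Pool.Agent.H849.SF Pool.Agent.H849.SEC
open Pool.Agent.H849.LM Pool.Agent.H849.SG
open Pool.Agent.R942.WB Pool.Agent.R942.WM

universe u v

variable {Ω : Type u} [Field Ω] [CharZero Ω] {Γ Γ' Γ'' : Type} {n N m q q' q'' : ℕ}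

section Slice

/-- The slice of a tensor for a functional. -/
noncomputable def slT {H U : Type v} [AddCommGroup H] [Module Ω H] [AddCommGroup U] [Module Ω U]
    (φ : U →ₗ[Ω] Ω) : (H ⊗[Ω] U) →ₗ[Ω] H :=
  (TensorProduct.rid Ω H).toLinearMap ∘ₗ TensorProduct.map LinearMap.id φ

lemma slT_tmul {H U : Type v} [AddCommGroup H] [Module Ω H] [AddCommGroup U] [Module Ω U]
    (φ : U →ₗ[Ω] Ω) (x : H) (y : U) : slT φ (x ⊗ₜ[Ω] y) = φ y • x := by
  simp [slT]

lemma slT_map {H H' U : Type v} [AddCommGroup H] [Module Ω H] [AddCommGroup H'] [Module Ω H']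
    [AddCommGroup U] [Module Ω U] (φ : U →ₗ[Ω] Ω) (f : H →ₗ[Ω] H') (g : Module.End Ω U)
    (z : H ⊗[Ω] U) : slT φ (TensorProduct.map f g z) = f (slT (φ ∘ₗ g) z) := by
  induction z using TensorProduct.induction_on with
  | zero => simp
  | tmul x y => rw [TensorProduct.map_tmul, slT_tmul, slT_tmul, map_smul]; rfl
  | add x y hx hy => rw [map_add, map_add, hx, hy, map_add, map_add]

lemma slT_zero {H U : Type v} [AddCommGroup H] [Module Ω H] [AddCommGroup U] [Module Ω U]
    {z : H ⊗[Ω] U} (h : ∀ φ : U →ₗ[Ω] Ω, slT φ z = 0) : z = 0 := by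
  classical
  let b := Basis.ofVectorSpace Ω U
  have key : ∀ (z : H ⊗[Ω] U) i,
      TensorProduct.equivFinsuppOfBasisRight b z i = slT (b.coord i) z := by
    intro z i
    induction z using TensorProduct.induction_on with
    | zero => simp
    | tmul x y =>
      rw [TensorProduct.equivFinsuppOfBasisRight_apply_tmul_apply, slT_tmul]
      rfl
    | add x y hx hy => rw [map_add, map_add, Finsupp.add_apply, hx, hy]
  apply (TensorProduct.equivFinsuppOfBasisRight b).injective
  rw [map_zero]
  ext i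
  rw [key, h, Finsupp.zero_apply]

end Slice

section Total

variable {X : SpecialFibre.{u, v} Ω Γ n q} {Y : SpecialFibre.{u, v} Ω Γ' N q'}
  (P : Product X.toStrataData Y.toStrataData)

/-- The slice of a class on the stratum for a functional. -/
noncomputable def sl (φ : P.U →ₗ[Ω] Ω) (a : ℕ) : Y.H a →ₗ[Ω] X.H a :=
  slT φ ∘ₗ (P.κ a).symm.toLinearMap

/-- The operator `f ⊗ g` on the cohomology of the stratum. -/
noncomputable def tp (f : ∀ a, Module.End Ω (X.H a)) (g : Module.End Ω P.U) (a : ℕ) :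
    Module.End Ω (Y.H a) :=
  (P.κ a).toLinearMap ∘ₗ TensorProduct.map (f a) g ∘ₗ (P.κ a).symm.toLinearMap

lemma sl_tp (φ : P.U →ₗ[Ω] Ω) (f : ∀ a, Module.End Ω (X.H a)) (g : Module.End Ω P.U) (a : ℕ)
    (y : Y.H a) : sl P φ a (tp P f g a y) = f a (sl P (φ ∘ₗ g) a y) := by
  obtain ⟨z, rfl⟩ := (P.κ a).surjective y
  simp only [sl, tp, LinearMap.comp_apply, LinearEquiv.coe_coe, LinearEquiv.symm_apply_apply]
  exact slT_map φ (f a) g z

lemma sl_res (φ : P.U →ₗ[Ω] Ω) (a : ℕ) (y : Y.H a) :
    sl P φ (a + 1) (Y.res a y) = X.res a (sl P φ a y) := by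
  obtain ⟨z, rfl⟩ := (P.κ a).surjective y
  rw [res_κ P]
  simp only [sl, LinearMap.comp_apply, LinearEquiv.coe_coe, LinearEquiv.symm_apply_apply]
  exact slT_map φ (X.res a) LinearMap.id z

lemma sl_gys (φ : P.U →ₗ[Ω] Ω) (a : ℕ) (y : Y.H (a + 1)) :
    sl P φ a (Y.gys a y) = X.gys a (sl P φ (a + 1) y) := by
  obtain ⟨z, rfl⟩ := (P.κ (a + 1)).surjective y
  rw [gys_κ P]
  simp only [sl, LinearMap.comp_apply, LinearEquiv.coe_coe, LinearEquiv.symm_apply_apply]
  exact slT_map φ (X.gys a) LinearMap.id z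

lemma sl_zero {a : ℕ} {y : Y.H a} (h : ∀ φ : P.U →ₗ[Ω] Ω, sl P φ a y = 0) : y = 0 := by
  obtain ⟨z, rfl⟩ := (P.κ a).surjective y
  rw [slT_zero (z := z) (fun φ => ?_), map_zero]
  have := h φ
  simpa only [sl, LinearMap.comp_apply, LinearEquiv.coe_coe, LinearEquiv.symm_apply_apply]
    using this

/-- The slice of a family. -/
noncomputable def slC (φ : P.U →ₗ[Ω] Ω) : Y.C →ₗ[Ω] X.C :=
  LinearMap.pi fun a => sl P φ a ∘ₗ LinearMap.proj a

lemma slC_apply (φ : P.U →ₗ[Ω] Ω) (y : Y.C) (a : ℕ) : slC P φ y a = sl P φ a (y a) := rfl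

lemma slC_cut (φ : P.U →ₗ[Ω] Ω) (r : ℤ) (y : Y.C) :
    slC P φ (Y.cut r y) = X.cut r (slC P φ y) := by
  funext a
  rw [slC_apply]
  by_cases h : InColumn r a
  · rw [Y.cut_of h, X.cut_of h, slC_apply]
  · rw [Y.cut_of_not h, X.cut_of_not h, map_zero]

lemma slC_diff (φ : P.U →ₗ[Ω] Ω) (r : ℤ) (y : Y.C) :
    slC P φ (Y.diff r y) = X.diff r (slC P φ y) := by
  rw [Y.diff_apply, X.diff_apply, slC_cut]
  congr 1
  funext a
  cases a with
  | zero =>
    show sl P φ 0 ((0 : Y.H 0) + Y.gys 0 (y 1)) = (0 : X.H 0) + X.gys 0 (sl P φ 1 (y 1))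
    rw [map_add, map_zero]
    congr 1
    exact sl_gys P φ 0 (y 1)
  | succ a =>
    show sl P φ (a + 1) (Y.res a (y a) + Y.gys (a + 1) (y (a + 2))) =
      X.res a (sl P φ a (y a)) + X.gys (a + 1) (sl P φ (a + 2) (y (a + 2)))
    rw [map_add, sl_res, sl_gys]

/-- The slice on the total complex. -/
noncomputable def slTot (φ : P.U →ₗ[Ω] Ω) : Total Y.toStrataData →ₗ[Ω] Total X.toStrataData :=
  (cutAll X.toStrataData).rangeRestrict ∘ₗ (LinearMap.pi fun r => slC P φ ∘ₗ LinearMap.proj r) ∘ₗ
    (LinearMap.range (cutAll Y.toStrataData)).subtype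

lemma val_slTot (φ : P.U →ₗ[Ω] Ω) (y : Total Y.toStrataData) (r : ℤ) :
    val X (slTot P φ y) r = slC P φ (val Y y r) := by
  have h1 : val X (slTot P φ y) r = X.cut r (slC P φ (val Y y r)) := rfl
  rw [h1, ← slC_cut, cut_tot]

lemma slTot_zero {y : Total Y.toStrataData} (h : ∀ φ : P.U →ₗ[Ω] Ω, slTot P φ y = 0) : y = 0 := by
  refine ext_tot Y fun r a => ?_
  refine sl_zero P fun φ => ?_
  rw [← slC_apply, ← val_slTot, h]
  rfl

lemma slTot_N (φ : P.U →ₗ[Ω] Ω) (y : Total Y.toStrataData) :
    slTot P φ (totN Y.toStrataData y) = totN X.toStrataData (slTot P φ y) := by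
  apply val_inj X
  funext r
  rw [val_slTot, totN_apply, totN_apply, slC_cut, val_slTot]

lemma slTot_N' (φ : P.U →ₗ[Ω] Ω) (y : Total Y.toStrataData) :
    slTot P φ (totN' Y.toStrataData y) = totN' X.toStrataData (slTot P φ y) := by
  refine ext_tot X fun r a => ?_
  rw [val_slTot, slC_apply, totN'_apply, totN'_apply, val_slTot, slC_apply, map_smul]

lemma slTot_D (φ : P.U →ₗ[Ω] Ω) (y : Total Y.toStrataData) :
    slTot P φ (totD Y.toStrataData y) = totD X.toStrataData (slTot P φ y) := by
  apply val_inj X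
  funext r
  rw [val_slTot, totD_apply, totD_apply, slC_diff, val_slTot]

lemma slTot_op (φ : P.U →ₗ[Ω] Ω) (f : ∀ a, Module.End Ω (X.H a)) (g : Module.End Ω P.U)
    (y : Total Y.toStrataData) : slTot P φ (totOp Y.toStrataData (tp P f g) y) =
      totOp X.toStrataData f (slTot P (φ ∘ₗ g) y) := by
  refine ext_tot X fun r a => ?_
  rw [val_slTot, slC_apply, totOp_apply, totOp_apply, val_slTot, slC_apply, sl_tp]

/-- The operator `f ⊗ 1`. -/
noncomputable def tl (f : ∀ a, Module.End Ω (X.H a)) : Module.End Ω (Total Y.toStrataData) :=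
  totOp Y.toStrataData (tp P f LinearMap.id)

/-- The operator `1 ⊗ g`. -/
noncomputable def tr (g : Module.End Ω P.U) : Module.End Ω (Total Y.toStrataData) :=
  totOp Y.toStrataData (tp P (fun _ => LinearMap.id) g)

lemma slTot_tl (φ : P.U →ₗ[Ω] Ω) (f : ∀ a, Module.End Ω (X.H a)) (y : Total Y.toStrataData) :
    slTot P φ (tl P f y) = totOp X.toStrataData f (slTot P φ y) := slTot_op P φ f _ y

lemma slTot_tr (φ : P.U →ₗ[Ω] Ω) (g : Module.End Ω P.U) (y : Total Y.toStrataData) :
    slTot P φ (tr P g y) = slTot P (φ ∘ₗ g) y := by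
  rw [tr, slTot_op]
  refine ext_tot X fun r a => ?_
  rw [totOp_apply]
  rfl

/-- Operators with the same slices are equal. -/
lemma ext_sl {A B : Module.End Ω (Total Y.toStrataData)}
    (h : ∀ φ y, slTot P φ (A y) = slTot P φ (B y)) : A = B := by
  ext1 y
  rw [← sub_eq_zero]
  refine slTot_zero P fun φ => ?_
  rw [map_sub, h, sub_self]

variable {lam : ∀ a, Module.End Ω (X.H a)} (hl : IsDual X lam)

/-- The operator `h₂ ⊗ 1`. -/
noncomputable def tH₂ (lam : ∀ a, Module.End Ω (X.H a)) : Module.End Ω (Total Y.toStrataData) :=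
  tl P X.lef * tl P lam - tl P lam * tl P X.lef

lemma slTot_H₁ (φ : P.U →ₗ[Ω] Ω) (y : Total Y.toStrataData) :
    slTot P φ (H₁ Y y) = H₁ X (slTot P φ y) := by
  simp only [H₁, LinearMap.sub_apply, Module.End.mul_apply, map_sub, slTot_N, slTot_N']

lemma slTot_H₂ (φ : P.U →ₗ[Ω] Ω) (y : Total Y.toStrataData) :
    slTot P φ (tH₂ P lam y) = H₂ X lam (slTot P φ y) := by
  simp only [tH₂, H₂, LinearMap.sub_apply, Module.End.mul_apply, map_sub, slTot_tl]

include hl in
/-- The total complex of the product is a weight complex for the operators of `X`. -/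
lemma weightComplex_prod : IsWeightComplex (H₁ Y) (totN Y.toStrataData) (totN' Y.toStrataData)
    (tH₂ P lam) (tl P X.lef) (tl P lam) (totD Y.toStrataData) where
  t₁ := triple₁ Y
  t₂ :=
    { he := ext_sl P fun φ y => by
        have := LinearMap.congr_fun (weightComplex X hl).t₂.he (slTot P φ y)
        simp only [LinearMap.sub_apply, Module.End.mul_apply, map_sub, LinearMap.smul_apply,
          map_smul, slTot_H₂, slTot_tl] at this ⊢
        exact this
      hf := ext_sl P fun φ y => by
        have := LinearMap.congr_fun (weightComplex X hl).t₂.hf (slTot P φ y)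
        simp only [LinearMap.sub_apply, Module.End.mul_apply, map_sub, LinearMap.smul_apply,
          map_smul, slTot_H₂, slTot_tl, LinearMap.neg_apply, map_neg] at this ⊢
        exact this
      ef := rfl }
  NL := totN_op Y _
  NL' := totN_op Y _
  N'L := totN'_op Y _
  N'L' := totN'_op Y _
  dd := totD_totD Y
  Nd := totN_totD Y
  Ld := ext_sl P fun φ y => by
    have := LinearMap.congr_fun (weightComplex X hl).Ld (slTot P φ y)
    simp only [Module.End.mul_apply, slTot_D, slTot_tl] at this ⊢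
    exact this
  h₁d := ext_sl P fun φ y => by
    have := LinearMap.congr_fun (weightComplex X hl).h₁d (slTot P φ y)
    simp only [LinearMap.sub_apply, Module.End.mul_apply, map_sub, slTot_D, slTot_H₁] at this ⊢
    exact this
  h₂d := ext_sl P fun φ y => by
    have := LinearMap.congr_fun (weightComplex X hl).h₂d (slTot P φ y)
    simp only [LinearMap.sub_apply, Module.End.mul_apply, map_sub, slTot_D, slTot_H₂] at this ⊢
    exact this

lemma slTot_lap (φ : P.U →ₗ[Ω] Ω) (y : Total Y.toStrataData) :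
    slTot P φ (lap (totN' Y.toStrataData) (tl P lam) (totD Y.toStrataData) y) =
      laplace X.toStrataData lam (slTot P φ y) := by
  simp only [laplace, lap, cod, LinearMap.sub_apply, LinearMap.add_apply, Module.End.mul_apply,
    map_sub, map_add, slTot_D, slTot_tl, slTot_N']

/-- The strong form for the product. -/
lemma vanishes_prod (hs : StrongForm X.toStrataData lam) :
    VanishesOnNull (lap (totN' Y.toStrataData) (tl P lam) (totD Y.toStrataData))
      (totD Y.toStrataData) := by
  intro m x hx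
  refine slTot_zero P fun φ => ?_
  rw [slTot_D]
  apply hs m
  have h1 : ∀ (m : ℕ) y, slTot P φ
      ((lap (totN' Y.toStrataData) (tl P lam) (totD Y.toStrataData) ^ m) y) =
        (laplace X.toStrataData lam ^ m) (slTot P φ y) := by
    intro m
    induction m with
    | zero => intro y; rfl
    | succ m ih =>
      intro y
      rw [pow_succ', Module.End.mul_apply, slTot_lap, ih, pow_succ', Module.End.mul_apply]
  rw [← h1, hx, map_zero]

include hl in
lemma exists_isGreen (hs : StrongForm X.toStrataData lam) :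
    ∃ Q G, IsGreen (H₁ Y) (totN Y.toStrataData) (totN' Y.toStrataData)
      (tH₂ P lam) (tl P X.lef) (tl P lam) (totD Y.toStrataData) Q G := by
  have := finTotal_aux Y
  obtain ⟨Q, F⟩ := exists_fitting (lap (totN' Y.toStrataData) (tl P lam) (totD Y.toStrataData))
  obtain ⟨G, h1, -, h2⟩ := exists_green F
  refine ⟨Q, G, weightComplex_prod P hl, F, fun x => ?_, h1, h2⟩
  obtain ⟨m, hm⟩ := F.nil
  exact vanishes_prod P hs m _ (hm x)

/-- The class. -/
noncomputable def sym (M : ℕ → Module.End Ω P.U) (r : ℕ) : Module.End Ω (Total Y.toStrataData) :=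
  ∑ i ∈ Finset.range r, tl P X.lef ^ i * tr P (M i)

lemma comm_tr {Q G : Module.End Ω (Total Y.toStrataData)}
    (T : IsGreen (H₁ Y) (totN Y.toStrataData) (totN' Y.toStrataData)
      (tH₂ P lam) (tl P X.lef) (tl P lam) (totD Y.toStrataData) Q G) (g : Module.End Ω P.U) :
    Comm (totN Y.toStrataData) (totN' Y.toStrataData) (tl P lam) (totD Y.toStrataData) G
      (tr P g) := by
  have h1 : Commute (tr P g) (totN Y.toStrataData) := (totN_op Y _).symm
  have h2 : Commute (tr P g) (totN' Y.toStrataData) := (totN'_op Y _).symm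
  have h3 : Commute (tr P g) (totD Y.toStrataData) := by
    refine ext_sl P fun φ y => ?_
    simp only [Module.End.mul_apply, slTot_D, slTot_tr]
  have h4 : Commute (tr P g) (tl P lam) := by
    refine ext_sl P fun φ y => ?_
    simp only [Module.End.mul_apply, slTot_tl, slTot_tr]
  have h5 : Commute (tr P g) (cod (totN' Y.toStrataData) (tl P lam) (totD Y.toStrataData)) := by
    have h6 := (h4.mul_right h3).sub_right (h3.mul_right h4)
    exact (h2.mul_right h6).sub_right (h6.mul_right h2)
  exact ⟨h1, h2, h3, h5, T.comm _ ((h3.mul_right h5).add_right (h5.mul_right h3))⟩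

lemma symbol_sym {Q G : Module.End Ω (Total Y.toStrataData)}
    (T : IsGreen (H₁ Y) (totN Y.toStrataData) (totN' Y.toStrataData)
      (tH₂ P lam) (tl P X.lef) (tl P lam) (totD Y.toStrataData) Q G)
    (M : ℕ → Module.End Ω P.U) (r : ℕ) :
    IsSymbol (totN Y.toStrataData) (totN' Y.toStrataData) (tl P lam) (totD Y.toStrataData) G
      (sym P M r) := by
  have := finTotal_aux Y
  exact IsGreen.symbol_sum _ (fun i => T.symbol_mul (T.symbol_pow T.symbol_L i)
    (IsGreen.symbol_of_comm (comm_tr P T (M i)))) r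

end Total

end Pool.Agent.H849.NC
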