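import Pool.Agent.H849.NC.Defs

/-!
# Definitions used in the statements
-/

set_option autoImplicit false

namespace Pool.Agent.H849.NC

open Module Pool.Agent.Y143 Pool.Agent.H849.SF Pool.Agent.H849.SEC Pool.Agent.H849.LM
open Pool.Agent.H849.SG

universe u v

variable {Ω : Type u} [Field Ω] [CharZero Ω] {Γ : Type} {q : ℕ}

/-- `lam a` is the dual Lefschetz operator of the strata `Y^(a+1)` for all `a`. -/
def AreDual (n : ℕ) (X : StrataData.{u, v} Ω Γ) (lam : ∀ a, Module.End Ω (X.H a)) : Prop :=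
  ∀ a : ℕ, IsDualLefschetz (X.gr a) ((n : ℤ) - a) (X.lef a) (lam a)

/-- For every `m` with `1 ≤ m ≤ n` there is an ample map `Z m → X`, `Z m` of relative dimension `m`
(and `X` of relative dimension `n`). -/
def AreSections (n : ℕ) (X : StrataData.{u, v} Ω Γ) (Z : ∀ m : ℕ, SemistableModel.{u, v} Ω Γ m q) :
    Prop :=
  ∀ m c : ℕ, 1 ≤ m → m + c = n → HasAmpleMap m c X (Z m).toStrataData

/-- The middle cohomology `H^m` of `Z m` is mw pure, for `1 ≤ m ≤ n` (this is known for `m ≤ 2`). -/
def MiddlePure (n : ℕ) (Z : ∀ m : ℕ, SemistableModel.{u, v} Ω Γ m q) : Prop :=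
  ∀ m : ℕ, 1 ≤ m → m ≤ n → IsPureIn (Z m) m

/-- All the cohomology groups of all the `Z` with an ample map to `X` are mw pure. -/
def PureOnSections (n q : ℕ) (X : StrataData.{u, v} Ω Γ) : Prop :=
  ∀ (m c : ℕ) (Z : SemistableModel.{u, v} Ω Γ m q), m + c = n →
    HasAmpleMap m c X Z.toStrataData → AllPure Z

/-- All the cohomology groups of `Z` are mw pure, for all the Lefschetz maps `Z → X × G` of polynomial
class, where `G` has good reduction. -/
def PureOnProducts (X : StrataData.{u, v} Ω Γ) : Prop :=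
  ∀ (Γ' Γ'' : Type) (N m q' q'' r : ℕ) (Y : SpecialFibre.{u, v} Ω Γ' N q')
    (P : Product X Y.toStrataData) (Z : SemistableModel.{u, v} Ω Γ'' m q'')
    (f : PullBacks Y.toStrataData Z.toStrataData) (M : ℕ → Module.End Ω P.U),
    1 < q'' → IsLefschetzMap m f → HasPolyClass P f M r → AllPure Z

end Pool.Agent.H849.NC
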