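import Pool.Agent.H849.NC.Fwd
import Pool.Agent.H849.SEC.Main

/-!
# The virtual sections in terms of the total complex
-/

set_option autoImplicit false
set_option linter.unusedSectionVars false

namespace Pool.Agent.H849.NC

open Module Submodule Pool.Agent.Y143 Pool.Agent.H849.SF Pool.Agent.H849.SEC
open Pool.Agent.R942.WB Pool.Agent.R942.WM

universe u v

variable {Ω : Type u} [Field Ω] [CharZero Ω] {Γ : Type} {m c q : ℕ}

/-- Injectivity of `N ^ k` for the section of codimension `c`. -/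
def VI {n : ℕ} (X : SpecialFibre.{u, v} Ω Γ n q) (lam : ∀ a, Module.End Ω (X.H a)) (c : ℕ) (s : ℤ) :
    Prop :=
  VInj (H₁ X) (totN X.toStrataData) (H₂ X lam) (totOp X.toStrataData X.lef) (totD X.toStrataData)
    c s

/-- Surjectivity of `N ^ k` for the section of codimension `c`. -/
def VS {n : ℕ} (X : SpecialFibre.{u, v} Ω Γ n q) (lam : ∀ a, Module.End Ω (X.H a)) (c : ℕ) (s : ℤ) :
    Prop :=
  VSurj (H₁ X) (totN X.toStrataData) (H₂ X lam) (totOp X.toStrataData X.lef) (totD X.toStrataData)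
    c s

variable (X : SpecialFibre.{u, v} Ω Γ (m + c) q) {lam : ∀ a, Module.End Ω (X.H a)}

lemma powL_zero {r w : ℤ} {x : X.C} (hx : x ∈ X.E₁ r w) :
    (totOp X.toStrataData X.lef ^ c) (sgl X r x) = 0 ↔ mkC X x = 0 := by
  rw [totL_pow_sgl, mkC_eq_zero]
  constructor
  · intro h
    rw [← sgl_val X (SF.lefC_pow_mem X hx c), h]
    rfl
  · intro h
    rw [h]
    exact sgl_zero X r

lemma powL_eq {r w : ℤ} {x y : X.C} (hx : x ∈ X.E₁ r w) (hy : y ∈ X.E₁ r w) :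
    (totOp X.toStrataData X.lef ^ c) (sgl X r x) = (totOp X.toStrataData X.lef ^ c) (sgl X r y) ↔
      mkC X x = mkC X y := by
  rw [← sub_eq_zero, ← map_sub, ← sgl_sub, powL_zero X (Submodule.sub_mem _ hx hy), map_sub,
    sub_eq_zero]

lemma mem_tot_iff {i j : ℤ} {x : X.C} : x ∈ X.tot i j ↔ x ∈ X.E₁ i ((m : ℤ) + (j + c) - i) := by
  unfold SpecialFibre.tot
  rw [show (((m + c : ℕ) : ℤ)) + j - i = (m : ℤ) + (j + c) - i by push_cast; ring]

lemma mk_tot {i j : ℤ} {x : X.C} (hx : x ∈ X.tot i j) : mkC X x ∈ (virt X).tot i (j + c) :=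
  mkC_mem X ((mem_tot_iff X).1 hx)

lemma rep_tot {i j : ℤ} {κ : (virt X).C} (hκ : κ ∈ (virt X).tot i (j + c)) :
    ∃ x ∈ X.tot i j, mkC X x = κ := by
  obtain ⟨x, hx, h⟩ := exists_rep X hκ
  exact ⟨x, (mem_tot_iff X).2 hx, h⟩

lemma diff_tot {i j : ℤ} {x : X.C} (hx : x ∈ X.tot i j) : X.diff i x ∈ X.tot (i + 1) (j + 1) :=
  X.mem_E₁_cast rfl (by ring) (X.diff_mem hx)

include lam in
/-- Injectivity for the virtual section from injectivity on the total complex. -/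
theorem nInj_of_vInj (hl : IsDual X lam) {s : ℤ} (h : VI X lam c s) (k : ℕ) :
    NInj (virt X).diff (virt X).tot k (s + c) := by
  rintro κ ⟨⟨hκ, hdκ⟩, hb⟩
  obtain ⟨x, hx, rfl⟩ := rep_tot X hκ
  obtain ⟨κ', hκ', hb'⟩ := hb
  rw [show s + (c : ℤ) - 1 = (s - 1) + c by ring] at hκ'
  obtain ⟨y, hy, rfl⟩ := rep_tot X hκ'
  rw [mkC_diff] at hb'
  have hdx : mkC X (X.diff (-k) x) = 0 := by
    rw [← mkC_diff]
    exact hdκ
  have hdy := diff_tot X hy
  rw [sub_add_cancel, sub_add_cancel] at hdy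
  have hx' : x ∈ X.tot k s := by rwa [← SF.tot_neg]
  have e1 := totN_pow_sgl X hx le_rfl
  rw [show -(k : ℤ) + 2 * k = k by ring] at e1
  have e2 := totD_sgl X (r := (k : ℤ) - 1) (w := _) hy
  rw [sub_add_cancel] at e2
  obtain ⟨z, hz⟩ := h k (sgl X (-k) x) (sgl X (k - 1) y) (by rw [H₁_sgl]; simp)
    (H₂_tot X hl hx) (by
      rw [totD_sgl X hx, powL_zero X (X.diff_mem hx)]
      exact hdx) (by
      rw [e1, e2, powL_eq X hx' hdy, hb'])
  have W := weightComplex X hl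
  obtain ⟨z', hz₁, hz₂, hz'⟩ := hom_pow W (diag₁ X) (diag₂ X hl) (H₁_sgl X (-k) x)
    (H₂_tot X hl hx) hz
  have e3 := eq_sgl X hz₁
  have e4 : val X z' (-k - 1) ∈ X.tot (-k - 1) (s - 1) := mem_tot X hl hz₂
  rw [e3, totD_sgl X e4, sub_add_cancel] at hz'
  have e5 := diff_tot X e4
  rw [sub_add_cancel, sub_add_cancel] at e5
  rw [powL_eq X hx e5] at hz'
  refine ⟨mkC X (val X z' (-k - 1)), ?_, ?_⟩
  · have := mk_tot X e4
    rwa [show s - 1 + (c : ℤ) = s + c - 1 by ring] at this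
  · rw [mkC_diff]
    exact hz'.symm

/-- Injectivity on the total complex from injectivity for the virtual section. -/
theorem vInj_of_nInj (hl : IsDual X lam) {s : ℤ}
    (h : ∀ k : ℕ, 1 ≤ k → NInj (virt X).diff (virt X).tot k (s + c)) : VI X lam c s := by
  intro k x y hx₁ hx₂ hdx hy
  rcases Nat.eq_zero_or_pos k with rfl | hk
  · exact ⟨y, by simpa using hy⟩
  have W := weightComplex X hl
  have hx₁' : H₁ X x = ((-(k : ℤ) : ℤ) : Ω) • x := by rw [hx₁]; push_cast; rfl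
  have e1 := eq_sgl X hx₁'
  have e2 : val X x (-k) ∈ X.tot (-k) s := mem_tot X hl hx₂
  set x₀ := val X x (-k) with hx₀
  have e2' : x₀ ∈ X.tot k s := by rwa [← SF.tot_neg]
  have e3 := totN_pow_sgl X e2 le_rfl
  rw [show -(k : ℤ) + 2 * k = k by ring] at e3
  rw [e1, totD_sgl X e2, powL_zero X (X.diff_mem e2)] at hdx
  rw [e1, e3] at hy
  obtain ⟨z, hz₁, hz₂, hz⟩ := hom_pow W (diag₁ X) (diag₂ X hl) (H₁_sgl X k x₀)
    (H₂_tot X hl e2') hy
  have e4 := eq_sgl X hz₁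
  have e5 : val X z (k - 1) ∈ X.tot (k - 1) (s - 1) := mem_tot X hl hz₂
  have e6 := diff_tot X e5
  rw [sub_add_cancel, sub_add_cancel] at e6
  rw [e4, totD_sgl X e5, sub_add_cancel, powL_eq X e2' e6] at hz
  have h1 : mkC X x₀ ∈ Zc (virt X).diff (virt X).tot (-k) (s + c) := by
    refine ⟨mk_tot X e2, ?_⟩
    rw [SetLike.mem_coe, LinearMap.mem_ker, mkC_diff]
    exact hdx
  have h2 : mkC X x₀ ∈ Bd (virt X).diff (virt X).tot k (s + c) := by
    refine ⟨mkC X (val X z (k - 1)), ?_, ?_⟩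
    · have := mk_tot X e5
      rwa [show s - 1 + (c : ℤ) = s + c - 1 by ring] at this
    · rw [mkC_diff, hz]
  obtain ⟨κ, hκ, hκ'⟩ := h k hk ⟨h1, h2⟩
  rw [show s + (c : ℤ) - 1 = (s - 1) + c by ring] at hκ
  obtain ⟨y', hy', rfl⟩ := rep_tot X hκ
  rw [mkC_diff] at hκ'
  have e7 := diff_tot X hy'
  rw [sub_add_cancel, sub_add_cancel] at e7
  refine ⟨sgl X (-k - 1) y', ?_⟩
  rw [e1, totD_sgl X hy', sub_add_cancel, powL_eq X e2 e7]
  exact hκ'.symm

/-- Surjectivity on the total complex from surjectivity for the virtual section. -/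
theorem vSurj_of_nSurj (hl : IsDual X lam) {s : ℤ}
    (h : ∀ k : ℕ, 1 ≤ k → NSurj (virt X).diff (virt X).tot k (s + c)) : VS X lam c s := by
  intro k y hy₁ hy₂ hdy
  rcases Nat.eq_zero_or_pos k with rfl | hk
  · refine ⟨y, 0, by simpa using hy₁, hy₂, hdy, ?_⟩
    simp
  have hy₁' : H₁ X y = ((k : ℤ) : Ω) • y := by rw [hy₁]; push_cast; rfl
  have e1 := eq_sgl X hy₁'
  have e2 : val X y k ∈ X.tot k s := mem_tot X hl hy₂
  set y₀ := val X y k with hy₀
  rw [e1, totD_sgl X e2, powL_zero X (X.diff_mem e2)] at hdy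
  have h1 : mkC X y₀ ∈ Zc (virt X).diff (virt X).tot k (s + c) := by
    refine ⟨mk_tot X e2, ?_⟩
    rw [SetLike.mem_coe, LinearMap.mem_ker, mkC_diff]
    exact hdy
  obtain ⟨κ, ⟨hκ, hdκ⟩, κ', ⟨κ'', hκ'', rfl⟩, hsum⟩ := Submodule.mem_sup.1 (h k hk h1)
  obtain ⟨x, hx, rfl⟩ := rep_tot X hκ
  rw [show s + (c : ℤ) - 1 = (s - 1) + c by ring] at hκ''
  obtain ⟨z, hz, rfl⟩ := rep_tot X hκ''
  have e3 := totN_pow_sgl X hx le_rfl
  rw [show -(k : ℤ) + 2 * k = k by ring] at e3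
  have hx' : x ∈ X.tot k s := by rwa [← SF.tot_neg]
  have e4 := diff_tot X hz
  rw [sub_add_cancel, sub_add_cancel] at e4
  refine ⟨sgl X (-k) x, sgl X (k - 1) z, by rw [H₁_sgl]; simp, H₂_tot X hl hx, ?_, ?_⟩
  · rw [totD_sgl X hx, powL_zero X (X.diff_mem hx), ← mkC_diff]
    exact hdκ
  · rw [e1, e3, ← sgl_sub, totD_sgl X hz, sub_add_cancel,
      powL_eq X (Submodule.sub_mem _ e2 hx') e4, map_sub, ← hsum, mkC_diff, add_sub_cancel_left]

end Pool.Agent.H849.NC
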